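import Pool.Agent.H441.AC.Forms

/-!
Polynomials over the function field of an algebraic curve with ramified values: the heights of the
norms of the roots are bounded in terms of the genus.
-/

set_option autoImplicit false

open FF Pool.Agent.W603.LV Pool.Agent.W602.GT Cardinal Pool.Agent.Y190.BV

namespace Pool.Agent.H441.AC

variable {k K : Type} [Field k] [Field K] [Algebra k K]

/-- **The algebraic core for curves.** -/
theorem core_hgt [IsAlgClosed k] [CharZero k] [IsFF k K] {L : Type} [Field L] [Algebra k L]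
    [Algebra K L] [IsScalarTower k K L] [FiniteDimensional K L] [IsGalois K L]
    (F : Polynomial K) (hF : F.Separable)
    (hs : (F.map (algebraMap K L)).Splits)
    (hS : Algebra.IsAlgebraic (Algebra.adjoin k (F.rootSet L)) L)
    {q : ℕ} (a : Fin q → k) (ha : Function.Injective a) (A : ℕ) (c : Fin q → ℕ)
    (hcA : ∀ i, c i ≤ A)
    (hbound : A * (F.natDegree + F.natDegree) < ∑ i, c i)
    (h0 : ∀ i, F.eval (algebraMap k K (a i)) ≠ 0)
    (hram : ∀ P : Place k K, ∀ j0, F.coeff j0 ≠ 0 →
      (∀ j, F.coeff j = 0 ∨ P.ord (F.coeff j0) ≤ P.ord (F.coeff j)) →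
      ∀ i, P.ord (F.eval (algebraMap k K (a i))) = P.ord (F.coeff j0) ∨
        (A : ℤ) ≤ ((A : ℤ) - c i) *
          (P.ord (F.eval (algebraMap k K (a i))) - P.ord (F.coeff j0)))
    (t : L) (ht : Polynomial.aeval t F = 0) (y : k) :
    hgt k (Algebra.norm K (t - algebraMap k L y)) ≤
      (A * (F.natDegree * Module.finrank K L) : ℕ) * canDeg k K := by
  classical
  have htr : Algebra.trdeg k K = (1 : ℕ) := by
    rw [Nat.cast_one]
    exact IsFF.trdeg (k := k) (K := K)
  have hF0 : F ≠ 0 := hF.ne_zero
  have hchK : CharZero K := charZero_of_injective_algebraMap (algebraMap k K).injective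
  have hinf : Infinite k := inferInstance
  obtain ⟨r, hr, hroot, hcoef⟩ := exists_roots (L := L) F hF hs
  have hlead : F.leadingCoeff ≠ 0 := Polynomial.leadingCoeff_ne_zero.2 hF0
  have hrange : F.rootSet L ⊆ Set.range r := by
    intro x hx
    rw [Polynomial.mem_rootSet] at hx
    have h1 : (F.map (algebraMap K L)).eval x = 0 := by
      rw [Polynomial.eval_map_algebraMap]; exact hx.2
    have h2 : F.map (algebraMap K L) = Polynomial.C (algebraMap K L F.leadingCoeff) *
        ∏ i, (Polynomial.X - Polynomial.C (r i)) := by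
      ext j
      rw [Polynomial.coeff_map, Polynomial.coeff_C_mul]
      exact hcoef j
    rw [h2, Polynomial.eval_mul, Polynomial.eval_C, Polynomial.eval_prod] at h1
    have h3 := (mul_eq_zero.1 h1).resolve_left ((map_ne_zero _).2 hlead)
    obtain ⟨i, _, hi⟩ := Finset.prod_eq_zero_iff.1 h3
    rw [Polynomial.eval_sub, Polynomial.eval_X, Polynomial.eval_C, sub_eq_zero] at hi
    exact ⟨i, hi.symm⟩
  obtain ⟨i₀, hi₀⟩ : ∃ i₀, r i₀ = t := hrange (by
    rw [Polynomial.mem_rootSet]
    exact ⟨hF0, ht⟩)
  have hS : Algebra.IsAlgebraic (Algebra.adjoin k (Set.range r)) L := by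
    have hle := Algebra.adjoin_mono (R := k) hrange
    let _ : Algebra (Algebra.adjoin k (F.rootSet L)) (Algebra.adjoin k (Set.range r)) :=
      (Subalgebra.inclusion hle).toRingHom.toAlgebra
    have : IsScalarTower (Algebra.adjoin k (F.rootSet L)) (Algebra.adjoin k (Set.range r)) L :=
      IsScalarTower.of_algebraMap_eq fun x => rfl
    exact Algebra.IsAlgebraic.extendScalars (R := Algebra.adjoin k (F.rootSet L))
      (Subalgebra.inclusion_injective hle)
  have htrL : Algebra.trdeg k L = (1 : ℕ) := by rw [trdeg_ext (K := K), htr]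
  obtain ⟨ι, hι, hιne, J, hwd, hcard, hJb, hJr, hcov⟩ := exists_families htrL r hS
  obtain ⟨ii, yy, hbas⟩ := exists_norm_basis (K := K) htr r hS
  set x : Fin 1 → K := fun j => Algebra.norm K (r (ii j) - algebraMap k L (yy j)) with hx
  have hcard' : Fintype.card ι ≤ F.natDegree := by omega
  have hb2 : A * (F.natDegree + 1 * Fintype.card ι) < ∑ i, c i := by
    refine lt_of_le_of_lt (Nat.mul_le_mul_left _ ?_) hbound
    omega
  have hA : 0 < A := by
    rcases Nat.eq_zero_or_pos A with h | h
    · exfalso
      rw [h, zero_mul] at hb2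
      have : ∑ i, c i = 0 := Finset.sum_eq_zero fun i _ => by
        have := hcA i
        omega
      omega
    · exact h
  have h0' : ∀ i, ev K (F.natDegree + 1) F.coeff (algebraMap k K (a i)) ≠ 0 := fun i => by
    rw [ev_eq_eval]; exact h0 i
  have hroot' : ∀ i, ev L (F.natDegree + 1) F.coeff (r i) = 0 := fun i => by
    rw [ev_eq_aeval]; exact hroot i
  have hmin : ∀ P : Place k K, ∃ j0, F.coeff j0 ≠ 0 ∧
      ∀ j, F.coeff j = 0 ∨ P.ord (F.coeff j0) ≤ P.ord (F.coeff j) := by
    intro P
    obtain ⟨j0, hj0, hj1⟩ := Finset.exists_min_image F.support (fun j => P.ord (F.coeff j))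
      (Polynomial.support_nonempty.2 hF0)
    refine ⟨j0, Polynomial.mem_support_iff.1 hj0, fun j => ?_⟩
    by_cases hj : F.coeff j = 0
    · exact Or.inl hj
    · exact Or.inr (hj1 j (Polynomial.mem_support_iff.2 hj))
  obtain ⟨ω, hω⟩ : ∃ ω : K → (Fin 1 → Derivation k K K) → K, ω = fun ψ =>
    phi F.leadingCoeff A c a J (F.natDegree + 1) F.coeff ψ := ⟨_, rfl⟩
  have hreg : ∀ ψ : K, (ψ = 1 ∨ ∃ (i : Fin F.natDegree) (y : k),
      ψ = Algebra.norm K (r i - algebraMap k L y)) → ∀ P : Place k K, RegAt P (ω ψ) := by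
    intro ψ hψ P D hD
    obtain ⟨j0, hj0, hj1⟩ := hmin P
    rw [hω]
    exact reg_phi (b := true) D hD F.coeff (c0 := P.ord (F.coeff j0)) (fun j _ => hj1 j) hj0 rfl
      a ha A c hcA h0' (fun _ i => by
        rw [ev_eq_eval]; exact hram P j0 hj0 hj1 i) hlead r hr hroot' hcoef J hJr hcov hb2
      ψ hψ
  have hpl : ∀ ψ, IsPluri (A * (Fintype.card ι * Module.finrank K L)) (ω ψ) := by
    intro ψ
    rw [hω]
    exact phi_pluri _ _ _ _ _ _ _ _
  have hNpos : 0 < A * (Fintype.card ι * Module.finrank K L) :=
    Nat.mul_pos hA (Nat.mul_pos Fintype.card_pos Module.finrank_pos)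
  -- vector fields on which the forms do not vanish
  have hD : ∀ i : Fin 1, ∃ D : Derivation k K K, ∀ j, D (x j) = if i = j then 1 else 0 :=
    fun i => exists_der x hbas (fun j => if i = j then 1 else 0)
  choose D hD using hD
  have hE : ∀ i, ∃ E : Derivation k L L, ∀ x : K, E (algebraMap K L x) =
      algebraMap K L (D i x) := fun i => exists_ext (D i)
  choose E hE using hE
  have hdet : ∀ l, (Matrix.of fun i j => E i (J l j)).det ≠ 0 := by
    intro l hl
    obtain ⟨v, hv0, hv⟩ := Matrix.exists_vecMul_eq_zero_iff.2 hl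
    have h1 : (∑ i, v i • E i : Derivation k L L) = 0 := by
      apply der_ext (J l) (hJb l)
      intro j
      rw [sum_smul_der]
      have := congrFun hv j
      exact this
    apply hv0
    funext j
    have h2 : (∑ i, v i • E i : Derivation k L L) (algebraMap K L (x j)) = v j := by
      rw [sum_smul_der, Finset.sum_eq_single j]
      · rw [hE, hD, if_pos rfl, map_one, mul_one]
      · intro i _ hij
        rw [hE, hD, if_neg hij, map_zero, mul_zero]
      · intro h
        exact absurd (Finset.mem_univ j) h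
    rw [h1] at h2
    exact h2.symm
  have hder : ∀ i (t : L), Polynomial.aeval t F = 0 →
      ev L (F.natDegree + 1) (fun j => D i (F.coeff j)) t =
        (- Polynomial.aeval t (Polynomial.derivative F)) * E i t := by
    intro i t ht
    have h1 := der_ev (hE i) (F.natDegree + 1) F.coeff t
    rw [ev_eq_aeval, ht, map_zero] at h1
    have h2 : (∑ j ∈ Finset.range (F.natDegree + 1), algebraMap K L (F.coeff j) *
        ((j : L) * t ^ (j - 1))) = Polynomial.aeval t (Polynomial.derivative F) := by
      exact sum_derivative F t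
    rw [h2] at h1
    linear_combination -h1
  have hphi : ω 1 D ≠ 0 := by
    rw [hω]
    change phi F.leadingCoeff A c a J (F.natDegree + 1) F.coeff 1 D ≠ 0
    unfold phi
    have hden : den F.leadingCoeff A c a J ≠ 0 := by
      unfold den
      refine mul_ne_zero (pow_ne_zero _ hlead) (Finset.prod_ne_zero_iff.2 fun l _ =>
        Finset.prod_ne_zero_iff.2 fun j _ => Finset.prod_ne_zero_iff.2 fun i _ =>
          pow_ne_zero _ (norm_ne (sub_ne_zero.2 ?_)))
      intro h
      obtain ⟨i', hi'⟩ := hJr l j
      have h3 := hroot' i'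
      rw [← hi', h, ev_const, map_eq_zero] at h3
      exact h0' i h3
    refine mul_ne_zero (div_ne_zero one_ne_zero hden) (pow_ne_zero _
      (Finset.prod_ne_zero_iff.2 fun l _ => norm_ne ?_))
    have h1 : mat (F.natDegree + 1) F.coeff (J l) D = Matrix.of fun i j =>
        (fun j => - Polynomial.aeval (J l j) (Polynomial.derivative F)) j *
          (Matrix.of fun i j => E i (J l j)) i j := by
      ext i j
      obtain ⟨i', hi'⟩ := hJr l j
      exact hder i (J l j) (by rw [hi']; exact hroot i')
    rw [h1, Matrix.det_mul_row (fun j => - Polynomial.aeval (J l j) (Polynomial.derivative F))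
      (Matrix.of fun i j => E i (J l j))]
    refine mul_ne_zero (Finset.prod_ne_zero_iff.2 fun j _ => neg_ne_zero.2 ?_) (hdet l)
    obtain ⟨i', hi'⟩ := hJr l j
    rw [hi']
    exact hF.aeval_derivative_ne_zero (hroot i')
  have h2 : ω (Algebra.norm K (t - algebraMap k L y)) D =
      Algebra.norm K (t - algebraMap k L y) * ω 1 D := by
    rw [hω]
    unfold phi
    ring
  have h3 := hgt_of_forms hNpos (hpl 1) (hpl _) (hreg 1 (Or.inl rfl))
    (hreg _ (Or.inr ⟨i₀, y, by rw [hi₀]⟩)) D hphi _ h2
  -- the canonical degree is not negative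
  have h4 : 0 ≤ canDeg k K := by
    have h5 := (hgt_nonneg (k := k) (Algebra.norm K (t - algebraMap k L y))).trans h3
    have h6 : (0 : ℤ) < (A * (Fintype.card ι * Module.finrank K L) : ℕ) := by exact_mod_cast hNpos
    exact nonneg_of_mul_nonneg_right h5 h6
  refine h3.trans (mul_le_mul_of_nonneg_right ?_ h4)
  have h7 : A * (Fintype.card ι * Module.finrank K L) ≤
      A * (F.natDegree * Module.finrank K L) :=
    Nat.mul_le_mul_left _ (Nat.mul_le_mul_right _ hcard')
  exact_mod_cast h7

end Pool.Agent.H441.AC
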