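import Pool.Agent.H441.AC.Ultra
import Pool.Agent.H441.UA.Fun
import Pool.Agent.H441.DQ.Geo

/-!
Points of intersections of diagonal hypersurfaces with coordinates in function fields of curves.
-/

set_option autoImplicit false

open FF Pool.Agent.W603.LV Pool.Agent.W603.PV Filter Polynomial
open Pool.Agent.H441.UA (Dich bd bdA bdN bdR pow_form main_alg)
open Pool.Agent.H441.DF (hpol hpol_eval hpol_coeff hpol_deg lin lin_add_mul root_const)

namespace Pool.Agent.H441.AC

/-- interpolation over a subfield -/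
theorem coeff_of_values {F : Type} [Field F] [CharZero F] (E : Subfield F) {m : ℕ} (p : F[X])
    (hp : p.natDegree ≤ m) (h : ∀ t : ℕ, t ≤ m → p.eval (t : F) ∈ E) (i : ℕ) : p.coeff i ∈ E := by
  classical
  let v : ℕ → E := fun t => (t : E)
  let r : ℕ → E := fun t => if ht : t ≤ m then ⟨p.eval (t : F), h t ht⟩ else 0
  let g : E[X] := Lagrange.interpolate (Finset.range (m + 1)) v r
  have hv : Set.InjOn v (Finset.range (m + 1)) := fun a _ b _ hab =>
    Nat.cast_injective (R := E) hab
  have hg : g.degree < (Finset.range (m + 1)).card := Lagrange.degree_interpolate_lt _ hv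
  have hpg : p = g.map E.subtype := by
    refine Polynomial.eq_of_degrees_lt_of_eval_index_eq (s := Finset.range (m + 1))
      (v := fun t : ℕ => (t : F)) ?_ ?_ ?_ ?_
    · intro a _ b _ hab
      exact Nat.cast_injective (R := F) hab
    · rw [Finset.card_range]
      exact lt_of_le_of_lt Polynomial.degree_le_natDegree (by exact_mod_cast (by omega))
    · exact lt_of_le_of_lt Polynomial.degree_map_le hg
    · intro t ht
      have ht' : t ≤ m := by
        have := Finset.mem_range.1 ht
        omega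
      have h1 : g.eval (v t) = r t := Lagrange.eval_interpolate_at_node _ hv ht
      have h2 : E.subtype (v t) = (t : F) := map_natCast _ _
      rw [← h2, Polynomial.eval_map, Polynomial.eval₂_hom, h1]
      simp only [r, dif_pos ht', h2]
      rfl
  rw [hpg, Polynomial.coeff_map]
  exact (g.coeff i).2

section

variable {k : Type} [Field k] [IsAlgClosed k] [CharZero k] {U : Ultrafilter ℕ} {L : ℕ → Type}
  [∀ j, Field (L j)] [∀ j, Algebra k (L j)] [∀ j, IsFF k (L j)] {b : ℕ → ℤ}

theorem eval_mk {m : ℕ} {H : ∀ j, (L j)[X]} {Hs : (Ult U L)[X]} (hd : ∀ j, (H j).natDegree ≤ m)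
    (hds : Hs.natDegree ≤ m) (hH : ∀ i ≤ m, Hs.coeff i = mk fun j => (H j).coeff i) (t : ℕ) :
    Hs.eval (t : Ult U L) = mk fun j => (H j).eval (t : L j) := by
  rw [Polynomial.eval_eq_sum_range' (Nat.lt_succ_of_le hds)]
  have h1 : (fun j => (H j).eval (t : L j)) =
      ∑ i ∈ Finset.range (m + 1), (fun j => (H j).coeff i) * (fun j => (t : L j)) ^ i := by
    funext j
    rw [Finset.sum_apply, Polynomial.eval_eq_sum_range' (Nat.lt_succ_of_le (hd j))]
    rfl
  rw [h1, mk_sum]
  refine Finset.sum_congr rfl fun i hi => ?_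
  have := Finset.mem_range.1 hi
  rw [mk_mul, mk_pow, mk_natCast, hH i (by omega)]

/-- the dichotomy in the ultraproduct -/
theorem dich_ult [CharZero (Ult U L)] {m : ℕ} {H : ∀ j, (L j)[X]} {Hs : (Ult U L)[X]}
    (hd : ∀ j, (H j).natDegree ≤ m) (hds : Hs.natDegree ≤ m)
    (hH : ∀ i ≤ m, Hs.coeff i = mk fun j => (H j).coeff i) (C : ℕ)
    (h : ∀ j, H j = 0 ∨ (∃ u v : L j, H j = (Polynomial.C u + Polynomial.C v * X) ^ m) ∨
      (H j ≠ 0 ∧ ∀ t : ℕ, hgt k ((H j).eval (t : L j) / (H j).leadingCoeff) ≤ C * b j)) :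
    Dich (bsub k U L b) m Hs := by
  classical
  have h1 : (∀ᶠ j in (U : Filter ℕ), H j = 0) ∨ (∀ᶠ j in (U : Filter ℕ), (∃ u v : L j,
      H j = (Polynomial.C u + Polynomial.C v * X) ^ m)) ∨ (∀ᶠ j in (U : Filter ℕ), (H j ≠ 0 ∧
        ∀ t : ℕ, hgt k ((H j).eval (t : L j) / (H j).leadingCoeff) ≤ C * b j)) := by
    rw [← Ultrafilter.eventually_or, ← Ultrafilter.eventually_or]
    exact Eventually.of_forall h
  rcases h1 with h1 | h1 | h1
  · left
    refine ⟨1, one_ne_zero, fun i => ⟨0, (bsub k U L b).zero_mem, ?_⟩⟩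
    rw [mul_zero]
    by_cases hi : i ≤ m
    · rw [hH i hi, ← mk_zero, mk_eq]
      filter_upwards [h1] with j hj
      rw [hj, Polynomial.coeff_zero]
    · exact Polynomial.coeff_eq_zero_of_natDegree_lt (by omega)
  · right
    have h2 : ∃ u v : ∀ j, L j, ∀ᶠ j in (U : Filter ℕ),
        H j = (Polynomial.C (u j) + Polynomial.C (v j) * X) ^ m := by
      have h3 : ∀ j, ∃ u v : L j, (∃ u v : L j,
          H j = (Polynomial.C u + Polynomial.C v * X) ^ m) →
          H j = (Polynomial.C u + Polynomial.C v * X) ^ m := by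
        intro j
        by_cases hj : ∃ u v : L j, H j = (Polynomial.C u + Polynomial.C v * X) ^ m
        · obtain ⟨u, v, huv⟩ := hj
          exact ⟨u, v, fun _ => huv⟩
        · exact ⟨0, 0, fun h => absurd h hj⟩
      choose u v huv using h3
      refine ⟨u, v, ?_⟩
      filter_upwards [h1] with j hj
      exact huv j hj
    obtain ⟨u, v, huv⟩ := h2
    refine ⟨mk u, mk v, ?_⟩
    refine Polynomial.eq_of_infinite_eval_eq _ _ ?_
    have h3 : Set.range (fun t : ℕ => (t : Ult U L)) ⊆ {x | Polynomial.eval x Hs =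
        Polynomial.eval x ((Polynomial.C (mk u) + Polynomial.C (mk v) * X) ^ m)} := by
      rintro _ ⟨t, rfl⟩
      rw [Set.mem_ofPred_eq, eval_mk hd hds hH]
      simp only [Polynomial.eval_pow, Polynomial.eval_add, Polynomial.eval_C, Polynomial.eval_mul,
        Polynomial.eval_X]
      rw [← mk_natCast, ← mk_mul, ← mk_add, ← mk_pow, mk_eq]
      filter_upwards [huv] with j hj
      rw [hj]
      simp only [Polynomial.eval_pow, Polynomial.eval_add, Polynomial.eval_C, Polynomial.eval_mul,
        Polynomial.eval_X]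
      rfl
    exact (Set.infinite_range_of_injective Nat.cast_injective).mono h3
  · left
    have hu : (mk (fun j => (H j).leadingCoeff) : Ult U L) ≠ 0 := by
      rw [ne_eq, ← mk_zero, mk_eq, ← Ultrafilter.eventually_not]
      filter_upwards [h1] with j hj
      exact Polynomial.leadingCoeff_ne_zero.2 hj.1
    set u : Ult U L := mk (fun j => (H j).leadingCoeff) with hud
    have h2 := coeff_of_values (bsub k U L b) (Polynomial.C u⁻¹ * Hs)
      ((Polynomial.natDegree_C_mul_le _ _).trans hds) (fun t _ => by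
        rw [Polynomial.eval_mul, Polynomial.eval_C, eval_mk hd hds hH, mul_comm, ← div_eq_mul_inv,
          hud, ← mk_div, mk_mem_bsub]
        refine ⟨C, ?_⟩
        filter_upwards [h1] with j hj
        exact hj.2 t)
    refine ⟨u, hu, fun i => ⟨u⁻¹ * Hs.coeff i, ?_, by rw [mul_inv_cancel_left₀ hu]⟩⟩
    have h3 := h2 i
    rwa [Polynomial.coeff_C_mul] at h3

end

end Pool.Agent.H441.AC
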