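import Pool.Graph.R_seed8.Y190.BV.Rad
import Pool.Graph.R_seed8.W603.LV.Hgt

/-!
Regular pluricanonical forms on algebraic curves and heights.
-/

set_option autoImplicit false

namespace Pool.Agent.H441.AC

open FF Pool.Agent.W603.LV Pool.Agent.W602.GT

variable {k K : Type} [Field k] [IsAlgClosed k] [CharZero k] [Field K] [Algebra k K] [IsFF k K]

/-- the order of a regular form -/
theorem ord_form {N : ℕ} {ω : (Fin 1 → Derivation k K K) → K} (h : IsPluri N ω) (P : Place k K)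
    (hr : RegAt P ω) {D : Derivation k K K} (hD : D ≠ 0) (h0 : ω (fun _ => D) ≠ 0) :
    N * vo P D ≤ P.ord (ω fun _ => D) := by
  have ha := der_pi_ne_zero hD P (ord_unif P)
  have h1 : DerReg P ((D (unif P))⁻¹ • D) := by
    intro f hf
    exact der_reg P (ord_unif P) ((D (unif P))⁻¹ • D) (by simp [ha]) hf
  have h2 := hr (fun _ => (D (unif P))⁻¹ • D) (fun _ => h1)
  have h3 := h (Matrix.of fun _ _ => (D (unif P))⁻¹) (fun _ => D)
  have h4 : (fun i : Fin 1 => ∑ j : Fin 1, (Matrix.of fun _ _ : Fin 1 => (D (unif P))⁻¹) i j •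
      (fun _ : Fin 1 => D) j) = fun _ => (D (unif P))⁻¹ • D := by
    funext i
    simp
  rw [h4] at h3
  rw [h3, Matrix.det_fin_one] at h2
  have h5 : ((D (unif P))⁻¹) ^ N ≠ 0 := pow_ne_zero _ (inv_ne_zero ha)
  have h6 := (P.reg_iff (mul_ne_zero h5 h0)).1 h2
  change 0 ≤ P.ord (((D (unif P))⁻¹) ^ N * ω fun _ => D) at h6
  rw [P.ord_mul h5 h0, P.ord_pow, P.ord_inv] at h6
  unfold vo
  linarith

/-- the height of the quotient of two regular forms -/
theorem hgt_of_forms {N : ℕ} (hN : 0 < N) {ω₀ ω₁ : (Fin 1 → Derivation k K K) → K}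
    (h0 : IsPluri N ω₀) (h1 : IsPluri N ω₁) (r0 : ∀ P : Place k K, RegAt P ω₀)
    (r1 : ∀ P : Place k K, RegAt P ω₁) (D : Fin 1 → Derivation k K K) (hD : ω₀ D ≠ 0) (x : K)
    (hx : ω₁ D = x * ω₀ D) : hgt k x ≤ N * canDeg k K := by
  classical
  obtain ⟨D', rfl⟩ : ∃ D', D = fun _ => D' := ⟨D 0, funext fun i => by
    rw [Subsingleton.elim i 0]⟩
  have hD' : D' ≠ 0 := by
    rintro rfl
    have h3 := h0 (Matrix.of fun _ _ => 0) (fun _ => 0)
    have h4 : (fun i : Fin 1 => ∑ j : Fin 1, (Matrix.of fun _ _ : Fin 1 => (0 : K)) i j •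
        (fun _ : Fin 1 => (0 : Derivation k K K)) j) = fun _ => 0 := by
      funext i
      simp
    rw [h4] at h3
    rw [Matrix.det_fin_one] at h3
    change ω₀ (fun _ => 0) = (0 : K) ^ N * _ at h3
    rw [zero_pow (by omega), zero_mul] at h3
    exact hD h3
  obtain ⟨f, hf⟩ : ∃ f, f = ω₀ fun _ => D' := ⟨_, rfl⟩
  rw [← hf] at hD hx
  -- a large finite set
  obtain ⟨T1, hT1⟩ := exists_supp (k := k) (Finset.univ : Finset (Fin 2)) ![f, x]
  obtain ⟨T, hT⟩ : ∃ T : Finset (Place k K), T = T1 ∪ (vo_finite hD').toFinset := ⟨_, rfl⟩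
  have hTf : ∀ P : Place k K, P.ord f ≠ 0 → P ∈ T := by
    intro P hP
    have := hT1 0 (Finset.mem_univ _) P hP
    simp [hT, this]
  have hTx : ∀ P : Place k K, P.ord x ≠ 0 → P ∈ T := by
    intro P hP
    have := hT1 1 (Finset.mem_univ _) P hP
    simp [hT, this]
  have hTv : ∀ P : Place k K, vo P D' ≠ 0 → P ∈ T := by
    intro P hP
    simp [hT, hP]
  have h2 : ∑ P ∈ T, (P.ord f - N * vo P D') = N * canDeg k K := by
    rw [Finset.sum_sub_distrib, sum_ord_finset f T hTf, ← Finset.mul_sum,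
      canDeg_finset hD' T hTv]
    ring
  rw [← h2, hgt_finset x T hTx]
  refine Finset.sum_le_sum fun P _ => ?_
  have h3 : N * vo P D' ≤ P.ord f := by
    rw [hf]
    exact ord_form h0 P (r0 P) hD' (by rw [← hf]; exact hD)
  by_cases hx0 : x = 0
  · rw [hx0, P.ord_zero]
    simp only [neg_zero, max_self]
    linarith
  · have h4 : N * vo P D' ≤ P.ord (ω₁ fun _ => D') :=
      ord_form h1 P (r1 P) hD' (by rw [hx]; exact mul_ne_zero hx0 hD)
    rw [hx, P.ord_mul hx0 hD] at h4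
    rw [max_le_iff]
    constructor <;> linarith

end Pool.Agent.H441.AC
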