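import Pool.Agent.H441.AC.Pull

/-!
Algebraically hyperbolic, bounded, groupless and hyperbolic varieties: systems of diagonal
equations.
-/

set_option autoImplicit false

namespace Pool.Agent.H441.AC

open MvPolynomial FF
open Pool.Agent.N254.SQ hiding Extends lin
open Pool.Agent.W602.GT (GeneralType LogGeneralType coords SubVar)
open Pool.Agent.W603.LV (canDeg)
open Pool.Agent.W603.PV (pht)
open Pool.Agent.H441.DQ (dform dform_hom dform_eval)
open Pool.Agent.H441.UA (FEmb vals pullφ pullφ_eval twist twist_eval twist_form twist_hom)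
open Pool.Agent.H441.FT (Match value_copy notIn_copy vals_one copy_coords copy_gen root_ne
  log_copy exists_fin maps_lift vals_smul vals_diff')

variable {n : ℕ}

/-- algebraic hyperbolicity of `V(S)` outside of `V(Z)` -/
def AlgIn (S Z : Set (MvPolynomial (Fin (n + 1)) ℂ)) : Prop :=
  ∃ α : ℕ, ∀ (E : Type) [Field E] [Algebra ℂ E] [IsFF ℂ E] (y : Fin (n + 1) → E), y ≠ 0 →
    (∀ p ∈ S, aeval y p = 0) → (∃ p ∈ Z, aeval y p ≠ 0) → pht ℂ y ≤ α * max (canDeg ℂ E) 0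

/-- boundedness of `V(S)` outside of `V(Z)` -/
def BndIn (S Z : Set (MvPolynomial (Fin (n + 1)) ℂ)) : Prop :=
  ∀ (E : Type) [Field E] [Algebra ℂ E] [IsFF ℂ E], ∃ B : ℤ, ∀ y : Fin (n + 1) → E, y ≠ 0 →
    (∀ p ∈ S, aeval y p = 0) → (∃ p ∈ Z, aeval y p ≠ 0) → pht ℂ y ≤ B

/-- the subvarieties of `V(S)` not contained in `V(Z)` are of general type -/
def SpecIn (S Z : Set (MvPolynomial (Fin (n + 1)) ℂ)) : Prop :=
  ∀ (L : Type) [Field L] [Algebra ℂ L] (w : ℕ) (y : Fin (n + 1) → L), 1 ≤ w →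
    SubVar (fun p : S => (p : MvPolynomial (Fin (n + 1)) ℂ)) L w y →
    (∃ p ∈ Z, aeval y p ≠ 0) → GeneralType ℂ L w

/-- the nonconstant holomorphic maps from complex tori to `V(S)` have image in `V(Z)` -/
def TorIn (S Z : Set (MvPolynomial (Fin (n + 1)) ℂ)) : Prop :=
  ∀ (g : ℕ) (L : AddSubgroup (Fin g → ℂ)), DiscreteTopology L →
    Submodule.span ℝ (L : Set (Fin g → ℂ)) = ⊤ → ∀ f : (Fin g → ℂ) → (Fin (n + 1) → ℂ),
      Differentiable ℂ f → (∀ z, f z ≠ 0) → (∀ z, ∀ p ∈ S, eval (f z) p = 0) →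
      (∀ z, ∀ l ∈ L, ∃ c : ℂ, f (z + l) = c • f z) → (∃ z w, ∀ b : ℂ, f w ≠ b • f z) →
        ∀ z, ∀ p ∈ Z, eval (f z) p = 0

section

variable {N k m : ℕ} {κ γ : Type} {S : Set (MvPolynomial (Fin (n + 1)) ℂ)}
  {S₀ : Finset (MvPolynomial (Fin (n + 1)) ℂ)}
  {T : κ → MvPolynomial (Fin (n + 1)) ℂ} {G : γ → MvPolynomial (Fin (n + 1)) ℂ}
  {φ : Fin (N + 1) → MvPolynomial (Fin (n + 1)) ℂ} {c : Fin k → Fin (N + 1) → ℂ}
  {I J : Set (Fin (N + 1))} {Z : Set (MvPolynomial (Fin (n + 1)) ℂ)}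
  {Z' : Set (MvPolynomial (Fin (N + 1)) ℂ)}

theorem alg_match (hm : m ≠ 0)
    (hE : FEmb m (fun p : S₀ => (p : MvPolynomial (Fin (n + 1)) ℂ)) T G φ c I J)
    (hS : ∀ (Ω : Type) [Field Ω] [Algebra ℂ Ω] (x : Fin (n + 1) → Ω),
      (∀ p : S₀, aeval x (p : MvPolynomial (Fin (n + 1)) ℂ) = 0) ↔ ∀ p ∈ S, aeval x p = 0)
    (hM : Match φ Z Z') : AlgIn (Set.range fun i => dform m (c i)) Z' ↔ AlgIn S Z := by
  obtain ⟨e, he, hpht⟩ := pht_copy hE
  obtain ⟨C, hC⟩ := hE.alg ℂ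
  have hζ : ∀ j : Fin (N + 1), (fun _ : Fin (N + 1) => (1 : ℂ)) j ≠ 0 := fun _ => one_ne_zero
  constructor
  · rintro ⟨α, hα⟩
    refine ⟨α, fun E _ _ _ x hx hxS hxZ => ?_⟩
    have h1 := hα E (vals (algebraMap ℂ E) φ x) (hE.ne E _ x hx) (by
        rintro _ ⟨i, rfl⟩
        exact (hE.pts E (algebraMap ℂ E) x hx).1 ((hS E x).2 hxS) i)
      ((notIn_copy hM hx one_ne_zero hζ (fun j => vals_one x j)).2 hxZ)
    rw [hpht E x 1 _ _ hx one_ne_zero hζ (fun j => vals_one x j)] at h1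
    have h2 := algiff_nonneg hx
    have h3 : (1 : ℤ) ≤ e := by exact_mod_cast he
    nlinarith
  · rintro ⟨α, hα⟩
    refine ⟨C + e * α, fun E _ _ _ y hy hyY hyZ => ?_⟩
    have hb : (0 : ℤ) ≤ max (canDeg ℂ E) 0 := le_max_right _ _
    rcases hC (RingHom.id ℂ) E y hy (fun i => hyY _ ⟨i, rfl⟩) with h1 |
      ⟨ζ, x, t, hζ, hx, ht, hxF, hyx⟩
    · refine h1.trans (mul_le_mul_of_nonneg_right ?_ hb)
      push_cast
      have : (0 : ℤ) ≤ e * α := by positivity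
      linarith
    · have hζ0 := root_ne hm hζ
      rw [hpht E x t ζ y hx ht hζ0 hyx]
      have h2 := hα E x hx ((hS E x).1 hxF) ((notIn_copy hM hx ht hζ0 hyx).1 hyZ)
      calc (e : ℤ) * pht ℂ x ≤ e * (α * max (canDeg ℂ E) 0) :=
            mul_le_mul_of_nonneg_left h2 (by positivity)
        _ = (e * α : ℤ) * max (canDeg ℂ E) 0 := by ring
        _ ≤ ((C + e * α : ℕ) : ℤ) * max (canDeg ℂ E) 0 := by
            refine mul_le_mul_of_nonneg_right ?_ hb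
            push_cast
            have : (0 : ℤ) ≤ C := by positivity
            linarith

theorem bnd_match (hm : m ≠ 0)
    (hE : FEmb m (fun p : S₀ => (p : MvPolynomial (Fin (n + 1)) ℂ)) T G φ c I J)
    (hS : ∀ (Ω : Type) [Field Ω] [Algebra ℂ Ω] (x : Fin (n + 1) → Ω),
      (∀ p : S₀, aeval x (p : MvPolynomial (Fin (n + 1)) ℂ) = 0) ↔ ∀ p ∈ S, aeval x p = 0)
    (hM : Match φ Z Z') : BndIn (Set.range fun i => dform m (c i)) Z' ↔ BndIn S Z := by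
  obtain ⟨e, he, hpht⟩ := pht_copy hE
  obtain ⟨C, hC⟩ := hE.alg ℂ
  have hζ : ∀ j : Fin (N + 1), (fun _ : Fin (N + 1) => (1 : ℂ)) j ≠ 0 := fun _ => one_ne_zero
  constructor
  · intro h E _ _ _
    obtain ⟨B, hB⟩ := h E
    refine ⟨B, fun x hx hxS hxZ => ?_⟩
    have h1 := hB (vals (algebraMap ℂ E) φ x) (hE.ne E _ x hx) (by
        rintro _ ⟨i, rfl⟩
        exact (hE.pts E (algebraMap ℂ E) x hx).1 ((hS E x).2 hxS) i)
      ((notIn_copy hM hx one_ne_zero hζ (fun j => vals_one x j)).2 hxZ)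
    rw [hpht E x 1 _ _ hx one_ne_zero hζ (fun j => vals_one x j)] at h1
    have h2 := algiff_nonneg hx
    have h3 : (1 : ℤ) ≤ e := by exact_mod_cast he
    nlinarith
  · intro h E _ _ _
    obtain ⟨B, hB⟩ := h E
    refine ⟨C * max (canDeg ℂ E) 0 + e * |B|, fun y hy hyY hyZ => ?_⟩
    have hb : (0 : ℤ) ≤ C * max (canDeg ℂ E) 0 := mul_nonneg (by positivity) (le_max_right _ _)
    have hB0 : (0 : ℤ) ≤ e * |B| := by positivity
    rcases hC (RingHom.id ℂ) E y hy (fun i => hyY _ ⟨i, rfl⟩) with h1 |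
      ⟨ζ, x, t, hζ, hx, ht, hxF, hyx⟩
    · linarith
    · have hζ0 := root_ne hm hζ
      rw [hpht E x t ζ y hx ht hζ0 hyx]
      have h2 := hB x hx ((hS E x).1 hxF) ((notIn_copy hM hx ht hζ0 hyx).1 hyZ)
      have h3 : (e : ℤ) * pht ℂ x ≤ e * |B| :=
        mul_le_mul_of_nonneg_left (h2.trans (le_abs_self _)) (by positivity)
      linarith

theorem spec_match (hm : m ≠ 0)
    (hE : FEmb m (fun p : S₀ => (p : MvPolynomial (Fin (n + 1)) ℂ)) T G φ c I J)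
    (hS : ∀ (Ω : Type) [Field Ω] [Algebra ℂ Ω] (x : Fin (n + 1) → Ω),
      (∀ p : S₀, aeval x (p : MvPolynomial (Fin (n + 1)) ℂ) = 0) ↔ ∀ p ∈ S, aeval x p = 0)
    (hM : Match φ Z Z') : SpecIn (Set.range fun i => dform m (c i)) Z' ↔ SpecIn S Z := by
  have hζ : ∀ j : Fin (N + 1), (fun _ : Fin (N + 1) => (1 : ℂ)) j ≠ 0 := fun _ => one_ne_zero
  constructor
  · intro h L _ _ w x hw hx hxZ
    refine h L w (vals (algebraMap ℂ L) φ x) hw ⟨hE.ne L _ x hx.ne, ?_,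
      hE.coords_eq (RingHom.id ℂ) hx.gen, hx.dim⟩
      ((notIn_copy hM hx.ne one_ne_zero hζ (fun j => vals_one x j)).2 hxZ)
    rintro ⟨_, i, rfl⟩
    exact (hE.pts L (algebraMap ℂ L) x hx.ne).1
      ((hS L x).2 fun p hp => hx.mem ⟨p, hp⟩) i
  · intro h L _ _ w y hw hy hyZ
    by_contra hg
    obtain ⟨ζ, x, s, hζ, hx, hs, hxF, hyx⟩ := hE.sub ℂ (RingHom.id ℂ) L w y hy.ne hy.gen
      hy.dim hg (fun i => hy.mem ⟨_, i, rfl⟩)
    exact hg (h L w x hw ⟨hx, fun p => (hS L x).1 hxF p p.2,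
      copy_gen hE (RingHom.id ℂ) hy.gen hx hs hyx, hy.dim⟩
      ((notIn_copy hM hx hs (root_ne hm hζ) hyx).1 hyZ))

theorem tor_match (hm : m ≠ 0)
    (hE : FEmb m (fun p : S₀ => (p : MvPolynomial (Fin (n + 1)) ℂ)) T G φ c I J)
    (hS : ∀ (Ω : Type) [Field Ω] [Algebra ℂ Ω] (x : Fin (n + 1) → Ω),
      (∀ p : S₀, aeval x (p : MvPolynomial (Fin (n + 1)) ℂ) = 0) ↔ ∀ p ∈ S, aeval x p = 0)
    (hM : Match φ Z Z') : TorIn (Set.range fun i => dform m (c i)) Z' ↔ TorIn S Z := by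
  have hζ1 : ∀ j : Fin (N + 1), (fun _ : Fin (N + 1) => (1 : ℂ)) j ≠ 0 := fun _ => one_ne_zero
  obtain ⟨e, hsm⟩ := vals_smul hE
  constructor
  · rintro h g L hL hL2 f hf hf0 hfS hper ⟨z₀, w₀, hnc⟩ z
    have h1 := h g L hL hL2 (fun z => vals (algebraMap ℂ ℂ) φ (f z))
      (vals_diff' (algebraMap ℂ ℂ) φ hf) (fun z => hE.ne ℂ _ (f z) (hf0 z)) (by
        rintro z _ ⟨i, rfl⟩
        exact (hE.pts ℂ (algebraMap ℂ ℂ) (f z) (hf0 z)).1 ((hS ℂ (f z)).2 (hfS z)) i)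
      (fun z l hl => by
        obtain ⟨b, hb⟩ := hper z l hl
        exact ⟨b ^ e, by rw [hb, hsm]⟩) ⟨z₀, w₀, fun b hb => by
          obtain ⟨t, ht⟩ := hE.inj ℂ (algebraMap ℂ ℂ) _ _ b (hf0 w₀) hb
          exact hnc t ht⟩ z
    by_contra hcon
    push Not at hcon
    obtain ⟨H, hH, hH0⟩ := (notIn_copy hM (hf0 z) one_ne_zero hζ1 (fun j => vals_one (f z) j)).2 hcon
    exact hH0 (h1 H hH)
  · rintro h g L hL hL2 f hf hf0 hfY hper hnc
    obtain ⟨ζ, x, hζ, hxd, hx0, hxF, hfx⟩ := maps_lift hm hE (RingHom.id ℂ) hf hf0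
      (fun z i => hfY z _ ⟨i, rfl⟩) hnc
    have hζ0 := root_ne hm hζ
    obtain ⟨z₀, w₀, hnc⟩ := hnc
    have h1 := h g L hL hL2 x hxd hx0 (fun z => (hS ℂ (x z)).1 (hxF z)) (fun z l hl => by
      obtain ⟨b, hb⟩ := hper z l hl
      refine hE.inj ℂ (RingHom.id ℂ) _ _ b (hx0 _) (funext fun j => ?_)
      have h2 := congrFun hb j
      rw [Pi.smul_apply, smul_eq_mul, hfx, hfx] at h2
      rw [Pi.smul_apply, smul_eq_mul]
      apply mul_left_cancel₀ (hζ0 j)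
      linear_combination h2) ⟨z₀, w₀, fun b hb => hnc (b ^ e) (funext fun j => by
        rw [hfx, hb, hsm, Pi.smul_apply, Pi.smul_apply, smul_eq_mul, smul_eq_mul, hfx]
        ring)⟩
    intro z
    by_contra hcon
    push Not at hcon
    obtain ⟨H, hH, hH0⟩ := (notIn_copy hM (hx0 z) one_ne_zero hζ0 (y := f z) (fun j => by
      rw [hfx, one_mul]
      rfl)).1 hcon
    exact hH0 (h1 z H hH)

end

section single

variable {S : Set (MvPolynomial (Fin (n + 1)) ℂ)} {Z : Set (MvPolynomial (Fin (n + 1)) ℂ)}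

theorem algIn_iff (hZ : Z.Finite) : AlgIn S Z ↔ ∀ p ∈ Z, OnAlgebraic S p := by
  classical
  constructor
  · rintro ⟨α, hα⟩ p hp
    exact ⟨α, fun E _ _ _ y hy hyS hyp => hα E y hy hyS ⟨p, hp, hyp⟩⟩
  · intro h
    have h1 : ∀ p, ∃ α : ℕ, p ∈ Z → ∀ (E : Type) [Field E] [Algebra ℂ E] [IsFF ℂ E]
        (y : Fin (n + 1) → E), y ≠ 0 → (∀ p ∈ S, aeval y p = 0) → aeval y p ≠ 0 →
        pht ℂ y ≤ α * max (canDeg ℂ E) 0 := by
      intro p
      by_cases hp : p ∈ Z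
      · obtain ⟨α, hα⟩ := h p hp
        exact ⟨α, fun _ => hα⟩
      · exact ⟨0, fun h => absurd h hp⟩
    choose α hα using h1
    refine ⟨∑ p ∈ hZ.toFinset, α p, fun E _ _ _ y hy hyS => ?_⟩
    rintro ⟨p, hp, hyp⟩
    refine (hα p hp E y hy hyS hyp).trans (mul_le_mul_of_nonneg_right ?_ (le_max_right _ _))
    exact_mod_cast Finset.single_le_sum (f := α) (fun _ _ => Nat.zero_le _)
      ((Set.Finite.mem_toFinset _).2 hp)

theorem bndIn_iff (hZ : Z.Finite) : BndIn S Z ↔ ∀ p ∈ Z, OnBounded S p := by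
  classical
  constructor
  · intro h p hp E _ _ _
    obtain ⟨B, hB⟩ := h E
    exact ⟨B, fun y hy hyS hyp => hB y hy hyS ⟨p, hp, hyp⟩⟩
  · intro h E _ _ _
    have h1 : ∀ p, ∃ B : ℤ, p ∈ Z → ∀ y : Fin (n + 1) → E, y ≠ 0 → (∀ p ∈ S, aeval y p = 0) →
        aeval y p ≠ 0 → pht ℂ y ≤ B := by
      intro p
      by_cases hp : p ∈ Z
      · obtain ⟨B, hB⟩ := h p hp E
        exact ⟨B, fun _ => hB⟩
      · exact ⟨0, fun h => absurd h hp⟩
    choose B hB using h1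
    refine ⟨∑ p ∈ hZ.toFinset, |B p|, fun y hy hyS => ?_⟩
    rintro ⟨p, hp, hyp⟩
    refine ((hB p hp y hy hyS hyp).trans (le_abs_self _)).trans ?_
    exact Finset.single_le_sum (f := fun p => |B p|) (fun _ _ => abs_nonneg _)
      ((Set.Finite.mem_toFinset _).2 hp)

theorem specIn_iff : SpecIn S Z ↔ ∀ p ∈ Z, OnSpecial S p := by
  constructor
  · intro h p hp L _ _ w y hw hy
    by_cases h0 : aeval y p = 0
    · exact Or.inr h0
    · exact Or.inl (h L w y hw hy ⟨p, hp, h0⟩)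
  · rintro h L _ _ w y hw hy ⟨p, hp, h0⟩
    exact (h p hp L w y hw hy).resolve_right h0

theorem torIn_iff : TorIn S Z ↔ ∀ p ∈ Z, OnTori S p := by
  constructor
  · intro h p hp g L hL hL2 f hf hf0 hfS hper
    by_cases hcon : ∀ z w, ∃ c : ℂ, f w = c • f z
    · exact Or.inl hcon
    · right
      push Not at hcon
      exact fun z => h g L hL hL2 f hf hf0 hfS hper hcon z p hp
  · rintro h g L hL hL2 f hf hf0 hfS hper ⟨z₀, w₀, hnc⟩ z p hp
    rcases h p hp g L hL hL2 f hf hf0 hfS hper with h1 | h1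
    · obtain ⟨b, hb⟩ := h1 z₀ w₀
      exact absurd hb (hnc b)
    · exact h1 z

end single

end Pool.Agent.H441.AC
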