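import Pool.Agent.H441.AC.Dich

/-!
Points of intersections of diagonal hypersurfaces with coordinates in function fields of curves:
the heights are bounded by a multiple of the genus, or the point is a copy of a point of the given
variety.
-/

set_option autoImplicit false

open FF Pool.Agent.W603.LV Pool.Agent.W603.PV Filter Polynomial
open Pool.Agent.H441.UA (Dich bd bdA bdN bdR pow_form main_alg)
open Pool.Agent.H441.DF (hpol hpol_eval hpol_coeff hpol_deg lin lin_add_mul root_const)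
open Pool.Agent.H441.DQ (Box lins linK linK_nat linK_hom linK_eval comb exists_fun)

namespace Pool.Agent.H441.AC

/-- the three cases for a pencil -/
theorem three {K k L : Type} [Field K] [CharZero K] [Field k] [IsAlgClosed k] [CharZero k]
    [Field L] [Algebra k L] [IsFF k L] [Algebra K L] {r m : ℕ} (hm : 2 ≤ m)
    (Λ : MvPolynomial (Fin r) K →ₗ[K] L)
    (hΛ : ∀ c : Fin r → ℕ, (∀ i, c i ≤ bd r m) → ∃ y, y ^ m = Λ (lin K c ^ m))
    (a c : Fin r → ℕ) (ha : ∀ i, a i ≤ m * (1 + (m ^ 2 + 1))) (hc : ∀ i, c i ≤ m) :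
    hpol Λ (lin K a) (lin K c) m = 0 ∨ (∃ u v : L, hpol Λ (lin K a) (lin K c) m =
      (Polynomial.C u + Polynomial.C v * X) ^ m) ∨
      (hpol Λ (lin K a) (lin K c) m ≠ 0 ∧ ∀ t : ℕ,
        hgt k ((hpol Λ (lin K a) (lin K c) m).eval (t : L) /
          (hpol Λ (lin K a) (lin K c) m).leadingCoeff) ≤
            (2 * m * m * m : ℕ) * max (canDeg k L) 0) := by
  classical
  have hchL : CharZero L := charZero_of_injective_algebraMap (algebraMap k L).injective
  set H := hpol Λ (lin K a) (lin K c) m with hH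
  by_cases h0 : H = 0
  · exact Or.inl h0
  right
  have hval : ∀ t : ℕ, t ≤ 4 * m → ∃ y : L, y ^ m = H.eval (t : L) := by
    intro t ht
    obtain ⟨y, hy⟩ := hΛ (fun l => a l + t * c l) (fun l => by
      have h3 := ha l
      have h4 : t * c l ≤ 4 * m * m := Nat.mul_le_mul ht (hc l)
      have h5 : 4 * m ≤ bdN r m := by
        have h6 : 1 ≤ bdR r m := by
          unfold bdR
          exact Nat.mul_pos (by positivity) (by positivity)
        have h7 : 1 * m ≤ bdR r m * m := Nat.mul_le_mul_right _ h6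
        unfold bdN
        have h8 : 4 * (1 * m) ≤ 4 * (bdR r m * m) := Nat.mul_le_mul_left _ h7
        calc 4 * m = 4 * (1 * m) := by ring
          _ ≤ 4 * (bdR r m * m) := h8
          _ ≤ _ := Nat.le_add_right _ _
      have h9 : 4 * m * m ≤ (bdN r m + bdR r m * m ^ 2) * m :=
        Nat.mul_le_mul_right _ (h5.trans (Nat.le_add_right _ _))
      simp only [bd, bdA]
      omega)
    rw [lin_add_mul] at hy
    exact ⟨y, by rw [hy, hH, hpol_eval]⟩
  by_cases hp : ∃ p : L[X], Irreducible p ∧ p ^ m ∣ H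
  · left
    obtain ⟨p, hp1, hp2⟩ := hp
    exact pow_form hm h0 (hpol_deg _ _ _ _) (fun t ht => hval t (by omega)) hp1 hp2
  · right
    push Not at hp
    refine ⟨h0, fun t => ?_⟩
    have h1 := rad_hgt (k := k) (n := m) (m := m) (N := 4 * m) hm le_rfl
      (fun i : Fin (4 * m + 1) => ((i : ℕ) : k)) (fun i j hij => by
        exact Fin.ext (Nat.cast_injective (R := k) hij)) H h0 (hpol_deg _ _ _ _) (fun i => by
        have h2 := hval i (by omega)
        simpa only [map_natCast] using h2) hp (t : k)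
    simpa only [map_natCast] using h1

/-- the functionals -/
theorem main_seq {K k : Type} [Field K] [CharZero K] [Field k] [IsAlgClosed k] [CharZero k]
    (U : Ultrafilter ℕ) (L : ℕ → Type) [∀ j, Field (L j)] [∀ j, Algebra k (L j)]
    [∀ j, IsFF k (L j)] [∀ j, Algebra K (L j)] {r m : ℕ} (hm : 2 ≤ m)
    (hKk : ∀ j, ∀ x : K, ∃ z : k, algebraMap K (L j) x = algebraMap k (L j) z)
    (Λ : ∀ j, MvPolynomial (Fin r) K →ₗ[K] L j)
    (hΛ : ∀ j, ∀ c : Fin r → ℕ, (∀ i, c i ≤ bd r m) → ∃ y, y ^ m = Λ j (lin K c ^ m)) :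
    (∃ u : ∀ j, L j, (∀ᶠ j in (U : Filter ℕ), u j ≠ 0) ∧
      ∀ F : MvPolynomial (Fin r) K, F.IsHomogeneous m →
        ∃ C : ℕ, ∀ᶠ j in (U : Filter ℕ), hgt k (Λ j F / u j) ≤ C * max (canDeg k (L j)) 0) ∨
    ∃ x : ∀ j, Fin r → L j, ∀ F : MvPolynomial (Fin r) K, F.IsHomogeneous m →
      ∀ᶠ j in (U : Filter ℕ), Λ j F = MvPolynomial.aeval (x j) F := by
  classical
  have hch : CharZero (Ult U L) :=
    charZero_of_injective_algebraMap (algebraMap K (Ult U L)).injective
  let b : ℕ → ℤ := fun j => max (canDeg k (L j)) 0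
  let Λs : MvPolynomial (Fin r) K →ₗ[K] Ult U L :=
    (Ideal.Quotient.mkₐ K (nul U L)).toLinearMap ∘ₗ LinearMap.pi Λ
  have hΛs : ∀ F, Λs F = mk fun j => Λ j F := fun F => rfl
  have hmain := main_alg (E := bsub k U L b) hm (fun z hz => bsub_closed z hz) (fun x => by
      choose z hz using fun j => hKk j x
      have h1 : algebraMap K (Ult U L) x = mk fun j => algebraMap k (L j) (z j) := by
        have h2 : algebraMap K (Ult U L) x = mk (algebraMap K (∀ j, L j) x) := rfl
        rw [h2, mk_eq]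
        exact Eventually.of_forall fun j => hz j
      rw [h1, mk_mem_bsub]
      exact Bdd.const z) Λs (fun a c ha hc => by
      refine dich_ult (H := fun j => hpol (Λ j) (lin K a) (lin K c) m)
        (fun j => hpol_deg _ _ _ _) (hpol_deg _ _ _ _) (fun i hi => ?_) (2 * m * m * m)
        fun j => three hm (Λ j) (hΛ j) a c ha hc
      rw [hpol_coeff _ _ _ _ hi, hΛs, ← mk_natCast, ← mk_mul, mk_eq]
      refine Eventually.of_forall fun j => ?_
      rw [hpol_coeff _ _ _ _ hi]
      rfl)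
  rcases hmain with ⟨u, hu, h1⟩ | ⟨x, hx⟩
  · left
    obtain ⟨u, rfl⟩ := mk_surj u
    rw [ne_eq, ← mk_zero, mk_eq, ← Ultrafilter.eventually_not] at hu
    refine ⟨u, hu, fun F hF => ?_⟩
    obtain ⟨e, he, h2⟩ := h1 F hF
    obtain ⟨e', ⟨C, hC⟩, rfl⟩ := he
    rw [hΛs, ← mk_mul, mk_eq] at h2
    refine ⟨C, ?_⟩
    filter_upwards [hu, hC, h2] with j h3 h4 h5
    rw [h5, Pi.mul_apply, mul_div_cancel_left₀ _ h3]
    exact h4
  · right
    choose xs hxs using fun l => mk_surj (x l)
    refine ⟨fun j l => xs l j, fun F hF => ?_⟩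
    have h1 := hx F hF
    have h2 : MvPolynomial.aeval x F = mk fun j => MvPolynomial.aeval (fun l => xs l j) F := by
      have h3 : x = fun l => Ideal.Quotient.mkₐ K (nul U L) (xs l) := by
        funext l
        exact (hxs l).symm
      have h4 : (MvPolynomial.aeval x F : Ult U L) = Ideal.Quotient.mkₐ K (nul U L)
          (MvPolynomial.aeval xs F) := by
        rw [h3]
        exact (MvPolynomial.map_aeval _ _ _).symm
      rw [h4]
      change mk (MvPolynomial.aeval xs F) = _
      rw [mk_eq]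
      refine Eventually.of_forall fun j => ?_
      have h5 : (Pi.evalAlgHom K L j) (MvPolynomial.aeval xs F) =
          MvPolynomial.aeval (fun l => xs l j) F := MvPolynomial.map_aeval _ _ _
      exact h5
    rw [hΛs, h2, mk_eq] at h1
    exact h1

/-- **Points with coordinates in function fields of curves.** -/
theorem alg_rel {K : Type} [Field K] [CharZero K] {k : Type} [Field k] [IsAlgClosed k] [CharZero k]
    {M N m B : ℕ} {A : Fin (N + 1) → Fin (M + 1) → K} (hm : 2 ≤ m) (ha : Box B A)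
    (hB : bd (M + 1) m ≤ B) : ∃ C : ℕ, ∀ (σ : K →+* k) (L : Type) [Field L] [Algebra k L]
      [IsFF k L] (y : Fin (N + 1) → L), y ≠ 0 →
      (∀ c, comb m A c = 0 → ∑ j, algebraMap k L (σ (c j)) * y j ^ m = 0) →
      pht k y ≤ C * max (canDeg k L) 0 ∨
      ∃ (ζ : Fin (N + 1) → k) (x : Fin (M + 1) → L), (∀ j, ζ j ^ m = 1) ∧
        ∀ j, y j = algebraMap k L (ζ j) * lins ((algebraMap k L).comp σ) A x j := by
  classical
  by_contra hcon
  have hcon' : ∀ C : ℕ, ∃ (σ : K →+* k) (L : Type) (_ : Field L) (_ : Algebra k L)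
      (_ : IsFF k L) (y : Fin (N + 1) → L), y ≠ 0 ∧
      (∀ c, comb m A c = 0 → ∑ j, algebraMap k L (σ (c j)) * y j ^ m = 0) ∧
      (C : ℤ) * max (canDeg k L) 0 < pht k y ∧
      ¬ ∃ (ζ : Fin (N + 1) → k) (x : Fin (M + 1) → L), (∀ j, ζ j ^ m = 1) ∧
        ∀ j, y j = algebraMap k L (ζ j) * lins ((algebraMap k L).comp σ) A x j := by
    intro C
    by_contra h
    apply hcon
    refine ⟨C, fun σ L i1 i2 i3 y hy hc => ?_⟩
    by_contra h'
    rw [not_or, not_le] at h'
    exact h ⟨σ, L, i1, i2, i3, y, hy, hc, h'.1, h'.2⟩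
  choose σ L i1 i2 i3 y hy hrel hlt hcopy using hcon'
  let _ : ∀ j, Algebra K (L j) := fun j => ((algebraMap k (L j)).comp (σ j)).toAlgebra
  have hex : ∀ j, ∃ Λ : MvPolynomial (Fin (M + 1)) K →ₗ[K] L j,
      ∀ i, Λ (linK (A i) ^ m) = y j i ^ m := fun j =>
    exists_fun (m := m) (A := A) (Y := fun i => y j i ^ m) fun c hc => hrel j c hc
  choose Λ hΛ using hex
  obtain ⟨U, hU⟩ : ∃ U : Ultrafilter ℕ, (U : Filter ℕ) ≤ atTop :=
    ⟨hyperfilter ℕ, by rw [← Nat.cofinite_eq_atTop]; exact hyperfilter_le_cofinite⟩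
  rcases main_seq (k := k) U L hm (fun j x => ⟨σ j x, rfl⟩) Λ (fun j c hc => by
    obtain ⟨i, hi⟩ := ha c (fun l => (hc l).trans hB)
    refine ⟨y j i, ?_⟩
    rw [← hΛ, hi, linK_nat]) with ⟨u, hu, h1⟩ | ⟨x, hx⟩
  · choose C hC using fun i => h1 (linK (A i) ^ m) (linK_hom _ _)
    have h2 : ∀ᶠ j in (U : Filter ℕ), ∀ i, hgt k (Λ j (linK (A i) ^ m) / u j) ≤
        C i * max (canDeg k (L j)) 0 := by
      rw [Filter.eventually_all]
      exact hC
    obtain ⟨B', hB'⟩ : ∃ B' : ℕ, B' = ∑ _i : Fin (N + 1), ∑ i, 2 * C i := ⟨_, rfl⟩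
    have h3 : ∀ᶠ j in (U : Filter ℕ), B' ≤ j := hU (eventually_ge_atTop B')
    obtain ⟨j, h4, h5, h6⟩ := (hu.and (h2.and h3)).exists
    obtain ⟨l, hl⟩ : ∃ l, y j l ≠ 0 := by
      by_contra h
      push Not at h
      exact hy j (funext h)
    have hmx : (0 : ℤ) ≤ max (canDeg k (L j)) 0 := le_max_right _ _
    have h7 : ∀ i, hgt k (y j i / y j l) ≤ (∑ i, 2 * C i : ℕ) * max (canDeg k (L j)) 0 := by
      intro i
      by_cases h0 : y j i = 0
      · rw [h0, zero_div, hgt_zero]
        positivity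
      have h8 : hgt k ((y j i / y j l) ^ m) ≤ (C i + C l : ℕ) * max (canDeg k (L j)) 0 := by
        have h9 : (y j i / y j l) ^ m = (Λ j (linK (A i) ^ m) / u j) *
            (Λ j (linK (A l) ^ m) / u j)⁻¹ := by
          rw [hΛ, hΛ, inv_div, div_mul_div_cancel₀ h4, div_pow]
        rw [h9]
        refine (hgt_mul_le _ _).trans ?_
        rw [hgt_inv]
        push_cast
        have := h5 i
        have := h5 l
        linarith
      rw [hgt_pow (div_ne_zero h0 hl)] at h8
      have h9 : hgt k (y j i / y j l) ≤ m * hgt k (y j i / y j l) := by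
        have h10 := hgt_nonneg (k := k) (y j i / y j l)
        have h11 : (1 : ℤ) ≤ m := by exact_mod_cast (by omega : 1 ≤ m)
        nlinarith
      refine (h9.trans h8).trans (mul_le_mul_of_nonneg_right ?_ hmx)
      have h10 : 2 * C i ≤ ∑ i, 2 * C i := Finset.single_le_sum (f := fun i => 2 * C i)
        (fun _ _ => Nat.zero_le _) (Finset.mem_univ i)
      have h11 : 2 * C l ≤ ∑ i, 2 * C i := Finset.single_le_sum (f := fun i => 2 * C i)
        (fun _ _ => Nat.zero_le _) (Finset.mem_univ l)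
      exact_mod_cast (by omega : C i + C l ≤ ∑ i, 2 * C i)
    have h8 : pht k (y j) ≤ (B' : ℤ) * max (canDeg k (L j)) 0 := by
      refine (pht_le (y j) hl).trans ((Finset.sum_le_sum fun i _ => h7 i).trans ?_)
      rw [hB', ← Finset.sum_mul]
      push_cast
      exact le_rfl
    have h9 := (hlt j).trans_le h8
    have h10 : (B' : ℤ) * max (canDeg k (L j)) 0 ≤ j * max (canDeg k (L j)) 0 :=
      mul_le_mul_of_nonneg_right (by exact_mod_cast h6) hmx
    linarith
  · have h1 : ∀ᶠ j in (U : Filter ℕ), ∀ i, Λ j (linK (A i) ^ m) =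
        MvPolynomial.aeval (x j) (linK (A i) ^ m) := by
      rw [Filter.eventually_all]
      exact fun i => hx _ (linK_hom _ _)
    obtain ⟨j, hj⟩ := h1.exists
    apply hcopy j
    have hyx : ∀ i, y j i ^ m = lins ((algebraMap k (L j)).comp (σ j)) A (x j) i ^ m := by
      intro i
      have h1 := hj i
      rw [hΛ, map_pow, linK_eval] at h1
      exact h1
    have hζ : ∀ i, ∃ c : k, c ^ m = 1 ∧
        y j i = algebraMap k (L j) c * lins ((algebraMap k (L j)).comp (σ j)) A (x j) i := by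
      intro i
      by_cases h0 : lins ((algebraMap k (L j)).comp (σ j)) A (x j) i = 0
      · refine ⟨1, one_pow _, ?_⟩
        have h1 := hyx i
        rw [h0, zero_pow (by omega)] at h1
        rw [h0, mul_zero]
        exact eq_zero_of_pow_eq_zero h1
      · obtain ⟨c, hc, hcζ⟩ := root_const (k := k) (m := m) (by omega)
          (ζ := y j i / lins ((algebraMap k (L j)).comp (σ j)) A (x j) i) (by
            rw [div_pow, hyx i, div_self (pow_ne_zero _ h0)])
        refine ⟨c, hc, ?_⟩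
        rw [hcζ, div_mul_cancel₀ _ h0]
    choose ζ hζm hζ using hζ
    exact ⟨ζ, x j, hζm, hζ⟩

end Pool.Agent.H441.AC
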