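import Pool.Agent.H441.AC.Trans

/-!
Exceptional sets of systems of diagonal equations in terms of the exceptional sets of the given
variety.
-/

set_option autoImplicit false

namespace Pool.Agent.H441.AC

open MvPolynomial FF
open Pool.Agent.N254.SQ hiding Extends lin
open Pool.Agent.W602.GT (GeneralType LogGeneralType coords SubVar)
open Pool.Agent.W603.LV (canDeg)
open Pool.Agent.W603.PV (pht)
open Pool.Agent.H441.DQ (dform dform_hom dform_eval)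
open Pool.Agent.H441.UA (FEmb vals pullφ pullφ_eval twist twist_eval twist_form twist_hom)
open Pool.Agent.H441.FT (Match value_copy notIn_copy vals_one copy_coords copy_gen root_ne Push
  ExcSet log_copy exists_fin)

/-- the exceptional set of the system is contained in the union of the copies of the exceptional set
of the variety -/
def Pull (P : ExcSet) : Prop :=
  ∀ (n N k m : ℕ) (_ : m ≠ 0) (S : Finset (MvPolynomial (Fin (n + 1)) ℂ)) (κ γ : Type)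
    (T : κ → MvPolynomial (Fin (n + 1)) ℂ) (G : γ → MvPolynomial (Fin (n + 1)) ℂ)
    (φ : Fin (N + 1) → MvPolynomial (Fin (n + 1)) ℂ) (c : Fin k → Fin (N + 1) → ℂ)
    (I J : Set (Fin (N + 1))),
    FEmb m (fun p : S => (p : MvPolynomial (Fin (n + 1)) ℂ)) T G φ c I J →
    ∀ S' : Set (MvPolynomial (Fin (n + 1)) ℂ), (∀ (Ω : Type) [Field Ω] [Algebra ℂ Ω]
      (x : Fin (n + 1) → Ω), (∀ p ∈ S, aeval x p = 0) → ∀ p ∈ S', aeval x p = 0) →
    ∀ (T₁ : Set (MvPolynomial (Fin (n + 1)) ℂ)) (T₂ : Set (MvPolynomial (Fin (N + 1)) ℂ)),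
      Match φ T₁ T₂ → ∀ H, IsForm H →
        (∀ ζ : Fin (N + 1) → ℂ, (∀ j, ζ j ^ m = 1) →
          P n S' T₁ (pullφ (RingHom.id ℂ) φ (twist ζ H))) →
        P N (Set.range fun i => dform m (c i)) T₂ H

/-- the value at a point of a copy -/
theorem eval_copy {n N : ℕ} {φ : Fin (N + 1) → MvPolynomial (Fin (n + 1)) ℂ} {L : Type} [Field L]
    [Algebra ℂ L] {x : Fin (n + 1) → L} {s : L} (hs : s ≠ 0) {ζ : Fin (N + 1) → ℂ}
    {y : Fin (N + 1) → L}
    (hyx : ∀ j, y j = s * (algebraMap ℂ L (ζ j) * vals (algebraMap ℂ L) φ x j))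
    {H : MvPolynomial (Fin (N + 1)) ℂ} (hH : IsForm H) :
    aeval x (pullφ (RingHom.id ℂ) φ (twist ζ H)) = 0 ↔ aeval y H = 0 := by
  rw [pullφ_eval, twist_eval]
  have e1 : y = s • fun j => algebraMap ℂ L (ζ j) * vals (algebraMap ℂ L) φ x j := by
    funext j
    rw [hyx, Pi.smul_apply, smul_eq_mul]
  rw [e1]
  exact (aeval_zero_of hH hs _).symm

theorem roots_finite {m N : ℕ} (hm : m ≠ 0) :
    {ζ : Fin (N + 1) → ℂ | ∀ j, ζ j ^ m = 1}.Finite := by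
  classical
  have h1 : {z : ℂ | z ^ m = 1}.Finite := by
    refine Set.Finite.subset (Polynomial.nthRoots m (1 : ℂ)).toFinset.finite_toSet ?_
    intro z hz
    have hz' : z ^ m = 1 := hz
    rw [Finset.mem_coe, Multiset.mem_toFinset, Polynomial.mem_nthRoots (by omega)]
    exact hz'
  exact Set.Finite.pi' fun _ => h1

theorem pull_curves : Pull fun _ S T G => OnCurvesQ S T G := by
  intro n N k m hm S κ γ T G φ c I J hE S' hS T₁ T₂ hM H hH h f hf hf0 hfY hfT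
  by_cases hcon : ∀ z w, ∃ b : ℂ, f w = b • f z
  · exact Or.inl hcon
  push Not at hcon
  obtain ⟨ζ, x, hζ, hxd, hx0, hxF, hfx⟩ := hE.curves (RingHom.id ℂ) f hf hf0
    (fun z i => hfY z _ ⟨i, rfl⟩) hcon
  have hζ0 := root_ne hm hζ
  have hfx' : ∀ z j, f z j = 1 * (algebraMap ℂ ℂ (ζ j) * vals (algebraMap ℂ ℂ) φ (x z) j) := by
    intro z j
    rw [one_mul]
    exact hfx z j
  rcases h ζ hζ x hxd hx0 (fun z => hS ℂ (x z) (fun p hp => hxF z ⟨p, hp⟩))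
    (fun z => (notIn_copy hM (hx0 z) one_ne_zero hζ0 (hfx' z)).1 (hfT z)) with h1 | h1
  · exfalso
    obtain ⟨z, w, hzw⟩ := hcon
    obtain ⟨b, hb⟩ := h1 z w
    obtain ⟨e, he⟩ := Pool.Agent.H441.FT.vals_scale hE
    refine hzw (b ^ e) (funext fun j => ?_)
    rw [Pi.smul_apply, smul_eq_mul, hfx' w, hfx' z, hb, he]
    simp only [one_mul, Algebra.algebraMap_self, RingHom.id_apply]
    ring
  · right
    intro z
    exact (eval_copy one_ne_zero (hfx' z) hH).1 (h1 z)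

theorem pull_special : Pull fun _ S T G => OnSpecialQ S T G := by
  intro n N k m hm S κ γ T G φ c I J hE S' hS T₁ T₂ hM H hH h L _ _ w y hw hy hT
  by_cases hg : GeneralType ℂ L w
  · exact Or.inl (t_cent.general N T₂ L w y hg)
  obtain ⟨ζ, x, s, hζ, hx, hs, hxF, hyx⟩ := hE.sub ℂ (RingHom.id ℂ) L w y hy.ne hy.gen
    hy.dim hg (fun i => hy.mem ⟨_, i, rfl⟩)
  have hζ0 := root_ne hm hζ
  rcases h ζ hζ L w x hw ⟨hx, fun p => hS L x (fun p hp => hxF ⟨p, hp⟩) p p.2,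
      copy_gen hE (RingHom.id ℂ) hy.gen hx hs hyx, hy.dim⟩
    ((notIn_copy hM hx hs hζ0 hyx).1 hT) with h1 | h1
  · exact Or.inl ((log_copy hE hM hx hs hζ0 hyx).2 h1)
  · exact Or.inr ((eval_copy hs hyx hH).1 h1)

theorem pull_bounded : Pull fun _ S T G => OnBoundedQ S T G := by
  classical
  intro n N k m hm S κ γ T G φ c I J hE S' hS T₁ T₂ hM H hH h E _ _ _ s
  obtain ⟨C, hC⟩ := hE.alg ℂ
  obtain ⟨e, he, hpht⟩ := pht_copy hE
  have hB : ∀ ζ : Fin (N + 1) → ℂ, ∃ B : ℤ, (∀ j, ζ j ^ m = 1) → ∀ x : Fin (n + 1) → E, x ≠ 0 →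
      (∀ p ∈ S', aeval x p = 0) → NotIn T₁ x → (∀ P ∉ s, ValueNotIn T₁ x P) →
      aeval x (pullφ (RingHom.id ℂ) φ (twist ζ H)) ≠ 0 → pht ℂ x ≤ B := by
    intro ζ
    by_cases hζ : ∀ j, ζ j ^ m = 1
    · obtain ⟨B, hB⟩ := h ζ hζ E s
      exact ⟨B, fun _ => hB⟩
    · exact ⟨0, fun h => absurd h hζ⟩
  choose B hB using hB
  let R := (roots_finite (N := N) hm).toFinset
  refine ⟨C * max (canDeg ℂ E) 0 + ∑ ζ ∈ R, e * |B ζ|, fun y hy hyY hyT hyv hyH => ?_⟩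
  have hR0 : 0 ≤ ∑ ζ ∈ R, (e : ℤ) * |B ζ| := Finset.sum_nonneg fun ζ _ => by positivity
  have hC0 : 0 ≤ (C : ℤ) * max (canDeg ℂ E) 0 := mul_nonneg (by positivity) (le_max_right _ _)
  rcases hC (RingHom.id ℂ) E y hy (fun i => hyY _ ⟨i, rfl⟩) with h1 |
    ⟨ζ, x, t, hζ, hx, ht, hxF, hyx⟩
  · linarith
  · have hζ0 := root_ne hm hζ
    rw [hpht E x t ζ y hx ht hζ0 hyx]
    have h2 := hB ζ hζ x hx (hS E x fun p hp => hxF ⟨p, hp⟩)
      ((notIn_copy hM hx ht hζ0 hyx).1 hyT)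
      (fun P hP => (value_copy hE hM hx ht hζ0 hyx P).1 (hyv P hP))
      (fun h0 => hyH ((eval_copy ht hyx hH).1 h0))
    have h3 : (e : ℤ) * pht ℂ x ≤ e * |B ζ| :=
      mul_le_mul_of_nonneg_left (h2.trans (le_abs_self _)) (by positivity)
    have h4 := Finset.single_le_sum (f := fun ζ => (e : ℤ) * |B ζ|)
      (fun ζ _ => by positivity) ((Set.Finite.mem_toFinset _).2 hζ : ζ ∈ R)
    linarith

theorem pull_degrees : Pull fun _ S T G => OnDegreesQ S T G := by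
  classical
  intro n N k m hm S κ γ T G φ c I J hE S' hS T₁ T₂ hM H hH h
  obtain ⟨C, hC⟩ := hE.alg ℂ
  obtain ⟨e, he, hpht⟩ := pht_copy hE
  have hB : ∀ ζ : Fin (N + 1) → ℂ, ∃ β : ℤ → ℤ, (∀ j, ζ j ^ m = 1) → ∀ (E : Type) [Field E]
      [Algebra ℂ E] [IsFF ℂ E] (s : Finset (Place ℂ E)) (x : Fin (n + 1) → E), x ≠ 0 →
      coords ℂ x = ⊤ → (∀ p ∈ S', aeval x p = 0) → NotIn T₁ x → (∀ P ∉ s, ValueNotIn T₁ x P) →
      aeval x (pullφ (RingHom.id ℂ) φ (twist ζ H)) ≠ 0 → pht ℂ x ≤ β (canDeg ℂ E + s.card) := by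
    intro ζ
    by_cases hζ : ∀ j, ζ j ^ m = 1
    · obtain ⟨β, hβ⟩ := h ζ hζ
      exact ⟨β, fun _ => hβ⟩
    · exact ⟨0, fun h => absurd h hζ⟩
  choose β hβ using hB
  let R := (roots_finite (N := N) hm).toFinset
  refine ⟨fun t => C * max t 0 + ∑ ζ ∈ R, e * |β ζ t|,
    fun E _ _ _ s y hy hyc hyY hyT hyv hyH => ?_⟩
  have hR0 : 0 ≤ ∑ ζ ∈ R, (e : ℤ) * |β ζ (canDeg ℂ E + s.card)| :=
    Finset.sum_nonneg fun ζ _ => by positivity
  have hC0 : (C : ℤ) * max (canDeg ℂ E) 0 ≤ (C : ℤ) * max (canDeg ℂ E + s.card) 0 :=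
    mul_le_mul_of_nonneg_left (max_le_max (by linarith [Int.natCast_nonneg s.card]) le_rfl)
      (by positivity)
  have hC1 : 0 ≤ (C : ℤ) * max (canDeg ℂ E + s.card) 0 :=
    mul_nonneg (by positivity) (le_max_right _ _)
  simp only
  rcases hC (RingHom.id ℂ) E y hy (fun i => hyY _ ⟨i, rfl⟩) with h1 |
    ⟨ζ, x, t, hζ, hx, ht, hxF, hyx⟩
  · linarith
  · have hζ0 := root_ne hm hζ
    rw [hpht E x t ζ y hx ht hζ0 hyx]
    have h2 := hβ ζ hζ E s x hx (copy_gen hE (RingHom.id ℂ) hyc hx ht hyx)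
      (hS E x fun p hp => hxF ⟨p, hp⟩) ((notIn_copy hM hx ht hζ0 hyx).1 hyT)
      (fun P hP => (value_copy hE hM hx ht hζ0 hyx P).1 (hyv P hP))
      (fun h0 => hyH ((eval_copy ht hyx hH).1 h0))
    have h3 : (e : ℤ) * pht ℂ x ≤ e * |β ζ (canDeg ℂ E + s.card)| :=
      mul_le_mul_of_nonneg_left (h2.trans (le_abs_self _)) (by positivity)
    have h4 := Finset.single_le_sum (f := fun ζ => (e : ℤ) * |β ζ (canDeg ℂ E + s.card)|)
      (fun ζ _ => by positivity) ((Set.Finite.mem_toFinset _).2 hζ : ζ ∈ R)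
    linarith

/-- all copies of `X` lie in the system -/
def PushAll (P : ExcSet) : Prop :=
  ∀ (n N k m : ℕ) (_ : m ≠ 0) (S : Finset (MvPolynomial (Fin (n + 1)) ℂ)) (κ γ : Type)
    (T : κ → MvPolynomial (Fin (n + 1)) ℂ) (G : γ → MvPolynomial (Fin (n + 1)) ℂ)
    (φ : Fin (N + 1) → MvPolynomial (Fin (n + 1)) ℂ) (c : Fin k → Fin (N + 1) → ℂ)
    (I J : Set (Fin (N + 1))),
    FEmb m (fun p : S => (p : MvPolynomial (Fin (n + 1)) ℂ)) T G φ c I J →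
    ∀ S' : Set (MvPolynomial (Fin (n + 1)) ℂ), (∀ (Ω : Type) [Field Ω] [Algebra ℂ Ω]
      (x : Fin (n + 1) → Ω), (∀ p ∈ S', aeval x p = 0) → ∀ p ∈ S, aeval x p = 0) →
    ∀ (T₁ : Set (MvPolynomial (Fin (n + 1)) ℂ)) (T₂ : Set (MvPolynomial (Fin (N + 1)) ℂ)),
      Match φ T₁ T₂ → ∀ H, IsForm H → P N (Set.range fun i => dform m (c i)) T₂ H →
        ∀ ζ : Fin (N + 1) → ℂ, (∀ j, ζ j ^ m = 1) →
          P n S' T₁ (pullφ (RingHom.id ℂ) φ (twist ζ H))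

/-- the points of the copies lie in the system -/
theorem copy_mem {n N k m : ℕ} {ι κ γ : Type} {F : ι → MvPolynomial (Fin (n + 1)) ℂ}
    {T : κ → MvPolynomial (Fin (n + 1)) ℂ} {G : γ → MvPolynomial (Fin (n + 1)) ℂ}
    {φ : Fin (N + 1) → MvPolynomial (Fin (n + 1)) ℂ} {c : Fin k → Fin (N + 1) → ℂ}
    {I J : Set (Fin (N + 1))} (hm : m ≠ 0) (hE : FEmb m F T G φ c I J) {L : Type} [Field L]
    [Algebra ℂ L] {x : Fin (n + 1) → L} (hx : x ≠ 0) (hxF : ∀ i, aeval x (F i) = 0) {s : L}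
    (hs : s ≠ 0) {ζ : Fin (N + 1) → ℂ} (hζ : ∀ j, ζ j ^ m = 1) {y : Fin (N + 1) → L}
    (hyx : ∀ j, y j = s * (algebraMap ℂ L (ζ j) * vals (algebraMap ℂ L) φ x j)) :
    y ≠ 0 ∧ ∀ i, aeval y (dform m (c i)) = 0 := by
  have hζ0 := root_ne hm hζ
  have hv := hE.ne L (algebraMap ℂ L) x hx
  refine ⟨?_, fun i => ?_⟩
  · obtain ⟨j, hj⟩ := vec_ne hv
    intro h0
    have h1 := congrFun h0 j
    rw [hyx j] at h1
    exact mul_ne_zero hs (mul_ne_zero ((_root_.map_ne_zero _).2 (hζ0 j)) hj) h1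
  · have h1 := (hE.pts L (algebraMap ℂ L) x hx).1 hxF i
    rw [dform_eval] at h1
    change eval₂ (algebraMap ℂ L) y (dform m (c i)) = 0
    rw [dform_eval]
    have h2 : ∀ j, algebraMap ℂ L (c i j) * y j ^ m =
        s ^ m * (algebraMap ℂ L (c i j) * vals (algebraMap ℂ L) φ x j ^ m) := by
      intro j
      rw [hyx j, mul_pow, mul_pow, ← map_pow, hζ, map_one, one_mul]
      ring
    rw [Finset.sum_congr rfl fun j _ => h2 j, ← Finset.mul_sum, h1, mul_zero]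

theorem pushAll_curves : PushAll fun _ S T G => OnCurvesQ S T G := by
  intro n N k m hm S κ γ T G φ c I J hE S' hS T₁ T₂ hM H hH h ζ hζ f hf hf0 hfS hfT
  have hζ0 := root_ne hm hζ
  obtain ⟨g, hg⟩ : ∃ g : ℂ → Fin (N + 1) → ℂ,
      g = fun z j => ζ j * vals (algebraMap ℂ ℂ) φ (f z) j := ⟨_, rfl⟩
  have hgx : ∀ z j, g z j = 1 * (algebraMap ℂ ℂ (ζ j) * vals (algebraMap ℂ ℂ) φ (f z) j) := by
    intro z j
    rw [one_mul, hg]
    rfl
  have hcm := fun z => copy_mem hm hE (hf0 z) (fun p => hS ℂ (f z) (hfS z) p p.2) one_ne_zero hζ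
    (hgx z)
  have hgd : Differentiable ℂ g := by
    rw [hg]
    refine differentiable_pi.2 fun j => ?_
    exact (differentiable_pi.1 (Pool.Agent.H441.FT.vals_diff' (algebraMap ℂ ℂ) φ hf) j).const_mul _
  rcases h g hgd (fun z => (hcm z).1) (by
      rintro z _ ⟨i, rfl⟩
      exact (hcm z).2 i)
    (fun z => (notIn_copy hM (hf0 z) one_ne_zero hζ0 (hgx z)).2 (hfT z)) with h1 | h1
  · left
    intro z w
    obtain ⟨b, hb⟩ := h1 z w
    refine hE.inj ℂ (algebraMap ℂ ℂ) (f w) (f z) b (hf0 w) (funext fun j => ?_)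
    have h2 := congrFun hb j
    rw [Pi.smul_apply, smul_eq_mul, hg] at h2
    simp only at h2
    rw [Pi.smul_apply, smul_eq_mul]
    apply mul_left_cancel₀ (hζ0 j)
    linear_combination h2
  · right
    intro z
    exact (eval_copy one_ne_zero (hgx z) hH).2 (h1 z)

theorem pushAll_special : PushAll fun _ S T G => OnSpecialQ S T G := by
  intro n N k m hm S κ γ T G φ c I J hE S' hS T₁ T₂ hM H hH h ζ hζ L _ _ w x hw hx hT
  have hζ0 := root_ne hm hζ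
  obtain ⟨y, hy⟩ : ∃ y : Fin (N + 1) → L,
      y = fun j => 1 * (algebraMap ℂ L (ζ j) * vals (algebraMap ℂ L) φ x j) := ⟨_, rfl⟩
  have hyx : ∀ j, y j = 1 * (algebraMap ℂ L (ζ j) * vals (algebraMap ℂ L) φ x j) :=
    fun j => by rw [hy]
  obtain ⟨h1, h2⟩ := copy_mem hm hE hx.ne (fun p => hS L x (fun p hp => hx.mem ⟨p, hp⟩) p p.2)
    one_ne_zero hζ hyx
  rcases h L w y hw ⟨h1, by
      rintro ⟨_, i, rfl⟩
      exact h2 i, copy_coords hE (RingHom.id ℂ) hx.gen one_ne_zero hζ0 hyx, hx.dim⟩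
    ((notIn_copy hM hx.ne one_ne_zero hζ0 hyx).2 hT) with h3 | h3
  · exact Or.inl ((log_copy hE hM hx.ne one_ne_zero hζ0 hyx).1 h3)
  · exact Or.inr ((eval_copy one_ne_zero hyx hH).2 h3)

theorem pushAll_bounded : PushAll fun _ S T G => OnBoundedQ S T G := by
  intro n N k m hm S κ γ T G φ c I J hE S' hS T₁ T₂ hM H hH h ζ hζ E _ _ _ s
  have hζ0 := root_ne hm hζ
  obtain ⟨e, he, hpht⟩ := pht_copy hE
  obtain ⟨B, hB⟩ := h E s
  refine ⟨B, fun x hx hxS hxT hxv hxG => ?_⟩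
  obtain ⟨y, hy⟩ : ∃ y : Fin (N + 1) → E,
      y = fun j => 1 * (algebraMap ℂ E (ζ j) * vals (algebraMap ℂ E) φ x j) := ⟨_, rfl⟩
  have hyx : ∀ j, y j = 1 * (algebraMap ℂ E (ζ j) * vals (algebraMap ℂ E) φ x j) :=
    fun j => by rw [hy]
  obtain ⟨h1, h2⟩ := copy_mem hm hE hx (fun p => hS E x hxS p p.2) one_ne_zero hζ hyx
  have h3 := hB y h1 (by
      rintro _ ⟨i, rfl⟩
      exact h2 i) ((notIn_copy hM hx one_ne_zero hζ0 hyx).2 hxT)
    (fun P hP => (value_copy hE hM hx one_ne_zero hζ0 hyx P).2 (hxv P hP))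
    (fun h0 => hxG ((eval_copy one_ne_zero hyx hH).2 h0))
  rw [hpht E x 1 ζ y hx one_ne_zero hζ0 hyx] at h3
  have h4 := algiff_nonneg hx
  have h5 : (1 : ℤ) ≤ e := by exact_mod_cast he
  nlinarith

theorem pushAll_degrees : PushAll fun _ S T G => OnDegreesQ S T G := by
  intro n N k m hm S κ γ T G φ c I J hE S' hS T₁ T₂ hM H hH h ζ hζ
  have hζ0 := root_ne hm hζ
  obtain ⟨e, he, hpht⟩ := pht_copy hE
  obtain ⟨β, hβ⟩ := h
  refine ⟨β, fun E _ _ _ s x hx hxc hxS hxT hxv hxG => ?_⟩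
  obtain ⟨y, hy⟩ : ∃ y : Fin (N + 1) → E,
      y = fun j => 1 * (algebraMap ℂ E (ζ j) * vals (algebraMap ℂ E) φ x j) := ⟨_, rfl⟩
  have hyx : ∀ j, y j = 1 * (algebraMap ℂ E (ζ j) * vals (algebraMap ℂ E) φ x j) :=
    fun j => by rw [hy]
  obtain ⟨h1, h2⟩ := copy_mem hm hE hx (fun p => hS E x hxS p p.2) one_ne_zero hζ hyx
  have h3 := hβ E s y h1 (copy_coords hE (RingHom.id ℂ) hxc one_ne_zero hζ0 hyx) (by
      rintro _ ⟨i, rfl⟩
      exact h2 i) ((notIn_copy hM hx one_ne_zero hζ0 hyx).2 hxT)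
    (fun P hP => (value_copy hE hM hx one_ne_zero hζ0 hyx P).2 (hxv P hP))
    (fun h0 => hxG ((eval_copy one_ne_zero hyx hH).2 h0))
  rw [hpht E x 1 ζ y hx one_ne_zero hζ0 hyx] at h3
  have h4 := algiff_nonneg hx
  have h5 : (1 : ℤ) ≤ e := by exact_mod_cast he
  nlinarith

/-- the pull back in the form used in the statements -/
theorem pull_twist {n N : ℕ} (φ : Fin (N + 1) → MvPolynomial (Fin (n + 1)) ℂ)
    (ζ : Fin (N + 1) → ℂ) (H : MvPolynomial (Fin (N + 1)) ℂ) :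
    pullφ (RingHom.id ℂ) φ (twist ζ H) = aeval (fun j => C (ζ j) * φ j) H := by
  unfold pullφ twist
  rw [← AlgHom.comp_apply]
  congr 1
  apply MvPolynomial.algHom_ext
  intro j
  rw [AlgHom.comp_apply, aeval_X, map_mul, aeval_X, aeval_X, MvPolynomial.map_id]
  congr 1
  rw [← algebraMap_eq, AlgHom.commutes]
  rfl

/-- **The exceptional set of the system is the union of the copies of the exceptional set of the
variety.** -/
theorem exc_iff {P : ExcSet} (h1 : Pull P) (h2 : PushAll P) {n N k m : ℕ} (hm : m ≠ 0)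
    {κ γ : Type} {S : Set (MvPolynomial (Fin (n + 1)) ℂ)}
    {S₀ : Finset (MvPolynomial (Fin (n + 1)) ℂ)} {T : κ → MvPolynomial (Fin (n + 1)) ℂ}
    {G : γ → MvPolynomial (Fin (n + 1)) ℂ} {φ : Fin (N + 1) → MvPolynomial (Fin (n + 1)) ℂ}
    {c : Fin k → Fin (N + 1) → ℂ} {I J : Set (Fin (N + 1))}
    {T₁ : Set (MvPolynomial (Fin (n + 1)) ℂ)} {T₂ : Set (MvPolynomial (Fin (N + 1)) ℂ)}
    (hE : FEmb m (fun p : S₀ => (p : MvPolynomial (Fin (n + 1)) ℂ)) T G φ c I J)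
    (hS : ∀ (Ω : Type) [Field Ω] [Algebra ℂ Ω] (x : Fin (n + 1) → Ω),
      (∀ p : S₀, aeval x (p : MvPolynomial (Fin (n + 1)) ℂ) = 0) ↔ ∀ p ∈ S, aeval x p = 0)
    (hM : Match φ T₁ T₂) {H : MvPolynomial (Fin (N + 1)) ℂ} (hH : IsForm H) :
    P N (Set.range fun i => dform m (c i)) T₂ H ↔
      ∀ ζ : Fin (N + 1) → ℂ, (∀ j, ζ j ^ m = 1) →
        P n S T₁ (aeval (fun j => C (ζ j) * φ j) H) := by
  simp only [← pull_twist]
  constructor
  · intro h ζ hζ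
    exact h2 n N k m hm S₀ κ γ T G φ c I J hE S
      (fun Ω _ _ x hx p hp => (hS Ω x).2 hx ⟨p, hp⟩) T₁ T₂ hM H hH h ζ hζ
  · intro h
    exact h1 n N k m hm S₀ κ γ T G φ c I J hE S
      (fun Ω _ _ x hx => (hS Ω x).1 fun p => hx p p.2) T₁ T₂ hM H hH h

end Pool.Agent.H441.AC
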