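import Pool.Agent.H441.AC.Core
import Pool.Graph.R_seed8.W603.PV.Ext
import Pool.Graph.R_seed8.W603.LV.Root

/-!
Polynomials over the function field of an algebraic curve whose values at many constants are
`m`-th powers: the heights of all values are bounded in terms of the genus.
-/

set_option autoImplicit false

open FF Pool.Agent.W603.LV Pool.Agent.W603.PV Pool.Agent.W602.GT Cardinal Pool.Agent.Y190.BV
  Polynomial

namespace Pool.Agent.H441.AC

section norm

variable {k K : Type} [Field k] [Field K] [Algebra k K]

/-- the norm of `t - y` for a root `t` of an irreducible polynomial -/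
theorem norm_root {L : Type} [Field L] [Algebra k L] [CharZero K]
    [Algebra K L] [IsScalarTower k K L] [FiniteDimensional K L] {p : K[X]} (hp : Irreducible p)
    (hpm : p.Monic) {t : L} (ht : aeval t p = 0) (y : k) :
    ∃ e : ℕ, 0 < e ∧ p.natDegree * e = Module.finrank K L ∧
      Algebra.norm K (t - algebraMap k L y) =
        ((-1) ^ p.natDegree * p.eval (algebraMap k K y)) ^ e := by
  have h1 : minpoly K t = p := (minpoly.eq_of_irreducible_of_monic hp ht hpm).symm
  have hint : IsIntegral K t := Algebra.IsIntegral.isIntegral t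
  set s : L := t - algebraMap k L y with hs
  have hs' : s = t - algebraMap K L (algebraMap k K y) := by
    rw [hs, IsScalarTower.algebraMap_apply k K L]
  have hints : IsIntegral K s := Algebra.IsIntegral.isIntegral s
  have h2 : minpoly K s = p.comp (X + C (algebraMap k K y)) := by
    rw [hs', minpoly.sub_algebraMap, h1]
  have h3 : (minpoly K s).natDegree = p.natDegree := by
    rw [h2, Polynomial.natDegree_comp, Polynomial.natDegree_X_add_C, mul_one]
  have h4 : (minpoly K s).coeff 0 = p.eval (algebraMap k K y) := by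
    rw [h2, Polynomial.coeff_zero_eq_eval_zero, Polynomial.eval_comp]
    simp
  let pb := IntermediateField.adjoin.powerBasis hints
  have h5 : Module.finrank K (IntermediateField.adjoin K {s}) = p.natDegree := by
    rw [IntermediateField.adjoin.finrank hints, h3]
  refine ⟨Module.finrank (IntermediateField.adjoin K {s}) L, Module.finrank_pos, ?_, ?_⟩
  · rw [← h5]
    exact Module.finrank_mul_finrank K (IntermediateField.adjoin K {s}) L
  · rw [Algebra.norm_eq_norm_adjoin K s]
    congr 1
    have h6 := Algebra.PowerBasis.norm_gen_eq_coeff_zero_minpoly pb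
    have h7 : pb.gen = IntermediateField.AdjoinSimple.gen K s :=
      IntermediateField.adjoin.powerBasis_gen hints
    have h8 : pb.dim = (minpoly K s).natDegree := IntermediateField.adjoin.powerBasis_dim hints
    rw [h7, h8, IntermediateField.minpoly_gen, h3, h4] at h6
    exact h6

end norm

variable {k K : Type} [Field k] [Field K] [Algebra k K]

theorem alg_mono {L : Type} [Field L] [Algebra k L] {A B : Subalgebra k L} (h : A ≤ B)
    (hA : Algebra.IsAlgebraic A L) : Algebra.IsAlgebraic B L := by
  let _ : Algebra A B := (Subalgebra.inclusion h).toRingHom.toAlgebra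
  have : IsScalarTower A B L := IsScalarTower.of_algebraMap_eq fun x => rfl
  exact Algebra.IsAlgebraic.extendScalars (R := A) (Subalgebra.inclusion_injective h)

theorem algebraic_of_mem {L : Type} [Field L] [Algebra k L]
    (htr : Algebra.trdeg k L = 1) {S : Set L} {t : L} (ht : t ∈ S) (htt : Transcendental k t) :
    Algebra.IsAlgebraic (Algebra.adjoin k S) L := by
  have h1 : AlgebraicIndependent k (fun _ : Unit => t) := by
    rw [algebraicIndependent_unique_type_iff]
    exact htt
  have h2 : IsTranscendenceBasis k (fun _ : Unit => t) := by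
    refine h1.isTranscendenceBasis_of_lift_trdeg_le_of_finite ?_
    rw [htr]; simp
  have hle : Algebra.adjoin k (Set.range fun _ : Unit => t) ≤ Algebra.adjoin k S := by
    refine Algebra.adjoin_mono ?_
    rintro _ ⟨_, rfl⟩
    exact ht
  exact alg_mono hle h2.isAlgebraic

/-- **Polynomials over the function field of a curve** without roots of multiplicity `m` or more
whose values at many constants are `m`-th powers: the heights of all values are bounded in terms
of the genus. -/
theorem rad_hgt [IsAlgClosed k] [CharZero k] [IsFF k K] {n m N : ℕ}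
    (hm : 2 ≤ m) (hN : 4 * n ≤ N) (a : Fin (N + 1) → k)
    (ha : Function.Injective a) (H : K[X]) (hH : H ≠ 0) (hdeg : H.natDegree ≤ n)
    (hpow : ∀ i, ∃ y : K, y ^ m = H.eval (algebraMap k K (a i)))
    (hmult : ∀ p : K[X], Irreducible p → ¬ p ^ m ∣ H) (y : k) :
    hgt k (H.eval (algebraMap k K y) / H.leadingCoeff) ≤
      (2 * n * n * m : ℕ) * max (canDeg k K) 0 := by
  classical
  have hchK : CharZero K := charZero_of_injective_algebraMap (algebraMap k K).injective
  have hinf : Infinite k := inferInstance
  obtain ⟨T, e, u, hu, hT, hHT, hTall⟩ := factor hH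
  set T1 : Finset K[X] := T.filter (fun p => ∀ i, p.eval (algebraMap k K (a i)) ≠ 0) with hT1
  set T0 : Finset K[X] := T.filter (fun p => ¬ ∀ i, p.eval (algebraMap k K (a i)) ≠ 0) with hT0
  set G : K[X] := ∏ p ∈ T1, p with hG
  have hT1T : ∀ p ∈ T1, p ∈ T := fun p hp => (Finset.mem_filter.1 hp).1
  have hem : ∀ p ∈ T, e p < m := by
    intro p hp
    by_contra hcon
    push Not at hcon
    exact hmult p (hT p hp).1 ((pow_dvd_pow p hcon).trans (hT p hp).2.2.2.2)
  have hGsep : G.Separable := by
    refine Polynomial.separable_prod' ?_ ?_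
    · intro p hp r hr hpr
      exact coprime_of_ne (hT p (hT1T p hp)).1 (hT r (hT1T r hr)).1 (hT p (hT1T p hp)).2.1
        (hT r (hT1T r hr)).2.1 hpr
    · intro p hp
      exact (hT p (hT1T p hp)).1.separable
  have hG0 : G ≠ 0 := hGsep.ne_zero
  have hGa : ∀ i, G.eval (algebraMap k K (a i)) ≠ 0 := by
    intro i
    rw [hG, Polynomial.eval_prod]
    exact Finset.prod_ne_zero_iff.2 fun p hp => (Finset.mem_filter.1 hp).2 i
  -- the Galois extension
  let q : K[X] := ∏ p ∈ T, p
  have hqsep : q.Separable := by
    refine Polynomial.separable_prod' ?_ ?_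
    · intro p hp r hr hpr
      exact coprime_of_ne (hT p hp).1 (hT r hr).1 (hT p hp).2.1 (hT r hr).2.1 hpr
    · intro p hp
      exact (hT p hp).1.separable
  let L := q.SplittingField
  have hgal : IsGalois K L := IsGalois.of_separable_splitting_field hqsep
  have hqs : (q.map (algebraMap K L)).Splits := Polynomial.SplittingField.splits q
  have hps : ∀ p ∈ T, (p.map (algebraMap K L)).Splits := by
    intro p hp
    exact hqs.of_dvd (Polynomial.map_ne_zero hqsep.ne_zero)
      (Polynomial.map_dvd _ (Finset.dvd_prod_of_mem _ hp))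
  have hGs : (G.map (algebraMap K L)).Splits := by
    refine hqs.of_dvd (Polynomial.map_ne_zero hqsep.ne_zero) (Polynomial.map_dvd _ ?_)
    exact Finset.prod_dvd_prod_of_subset _ _ _ (Finset.filter_subset _ _)
  -- the good nodes
  let I1 : Finset (Fin (N + 1)) :=
    Finset.univ.filter fun i => H.eval (algebraMap k K (a i)) ≠ 0
  let I0 : Finset (Fin (N + 1)) :=
    Finset.univ.filter fun i => ¬ H.eval (algebraMap k K (a i)) ≠ 0
  have hI : I1.card + I0.card = N + 1 := by
    have := Finset.card_filter_add_card_filter_not (s := (Finset.univ : Finset (Fin (N + 1))))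
      (fun i => H.eval (algebraMap k K (a i)) ≠ 0)
    rw [Finset.card_univ, Fintype.card_fin] at this
    exact this
  -- degrees
  have hdegT : ∑ p ∈ T, p.natDegree ≤ n := by
    have h1 : (∏ p ∈ T, p) ∣ H := by
      rw [hHT]
      refine Dvd.dvd.mul_left ?_ _
      exact Finset.prod_dvd_prod_of_dvd _ _ fun p hp =>
        dvd_pow_self p (by have := (hT p hp).2.2.2.1; omega)
    have h2 := Polynomial.natDegree_le_of_dvd h1 hH
    rw [Polynomial.natDegree_prod _ _ fun p hp => (hT p hp).1.ne_zero] at h2
    exact h2.trans hdeg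
  have hdegG : G.natDegree = ∑ p ∈ T1, p.natDegree := by
    rw [hG, Polynomial.natDegree_prod _ _ fun p hp => (hT p (hT1T p hp)).1.ne_zero]
  have hI0T : I0.card ≤ ∑ p ∈ T0, p.natDegree := by
    have h1 : I0.card ≤ T0.card := by
      refine Finset.card_le_card_of_injOn (fun i => X - C (algebraMap k K (a i))) ?_ ?_
      · intro i hi
        have hi2 := (Finset.mem_filter.1 hi).2
        rw [not_not] at hi2
        refine Finset.mem_coe.2 (Finset.mem_filter.2 ⟨hTall _ (Polynomial.irreducible_X_sub_C _)
          (Polynomial.monic_X_sub_C _) (Polynomial.dvd_iff_isRoot.2 hi2), ?_⟩)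
        push Not
        exact ⟨i, by simp⟩
      · intro i _ j _ hij
        have h2 := Polynomial.C_injective (sub_right_injective hij)
        exact ha ((algebraMap k K).injective h2)
    refine h1.trans ?_
    rw [Finset.card_eq_sum_ones]
    refine Finset.sum_le_sum fun p hp => ?_
    exact (hT p (Finset.mem_filter.1 hp).1).1.natDegree_pos
  have hsplitT : ∑ p ∈ T1, p.natDegree + ∑ p ∈ T0, p.natDegree = ∑ p ∈ T, p.natDegree :=
    Finset.sum_filter_add_sum_filter_not _ _ _
  have hdz : G.natDegree + I0.card ≤ n := by omega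
  let ee := I1.equivFin.symm
  have hee : ∀ i, H.eval (algebraMap k K (a (ee i))) ≠ 0 := fun i =>
    (Finset.mem_filter.1 (ee i).2).2
  -- divisibility by m
  have hnN : n ≤ N := by omega
  have hram : ∀ (P : Place k K) (i : Fin (N + 1)), H.eval (algebraMap k K (a i)) ≠ 0 →
      ct P G (a i) = 0 ∨ 2 ≤ ct P G (a i) := by
    intro P i hi
    have hpe : ∀ p ∈ T, p.eval (algebraMap k K (a i)) ≠ 0 := by
      intro p hp h0
      apply hi
      obtain ⟨r, hr⟩ := (hT p hp).2.2.1
      rw [hr, Polynomial.eval_mul, h0, zero_mul]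
    have hdivm : ∀ i, H.eval (algebraMap k K (a i)) ≠ 0 →
        (m : ℤ) ∣ P.ord (H.eval (algebraMap k K (a i))) := by
      intro i _
      obtain ⟨y, hy⟩ := hpow i
      rw [← hy, P.ord_pow]
      exact Dvd.intro _ rfl
    have hcntm : (m : ℤ) ∣ cnt P H := by
      obtain ⟨j, hj, hj2⟩ := exists_good P hH hdeg (fun i : Fin (n + 1) =>
        a (Fin.castLE (by omega) i)) (fun x y hxy => Fin.castLE_injective _ (ha hxy))
      rw [← hj2]
      exact hdivm _ hj
    have h1 : (m : ℤ) ∣ ct P H (a i) := dvd_sub (hdivm i hi) hcntm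
    have h2 : ct P H (a i) = ∑ p ∈ T, (e p : ℤ) * ct P p (a i) := by
      have hprod : (∏ p ∈ T, p ^ e p).eval (algebraMap k K (a i)) ≠ 0 := by
        rw [Polynomial.eval_prod]
        refine Finset.prod_ne_zero_iff.2 fun p hp => ?_
        rw [Polynomial.eval_pow]
        exact pow_ne_zero _ (hpe p hp)
      rw [hHT, ct_mul P (by rw [Polynomial.eval_C]; exact hu) hprod, ct_C P hu, zero_add,
        ct_prod P T _ fun p hp => by
          rw [Polynomial.eval_pow]
          exact pow_ne_zero _ (hpe p hp)]
      exact Finset.sum_congr rfl fun p hp => ct_pow P (hpe p hp) _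
    have h3 : ∑ p ∈ T0, (e p : ℤ) * ct P p (a i) = 0 := by
      refine Finset.sum_eq_zero fun p hp => ?_
      have hp' := (Finset.mem_filter.1 hp)
      have hp2 := hp'.2
      push Not at hp2
      obtain ⟨j, hj⟩ := hp2
      have hpX := eq_X_sub_C (hT p hp'.1).1 (hT p hp'.1).2.1 hj
      have hij : a i ≠ a j := by
        intro h
        apply hpe p hp'.1
        rw [h]; exact hj
      rw [hpX, ct_X_sub_C P hij, mul_zero]
    have h4 : ct P H (a i) = ∑ p ∈ T1, (e p : ℤ) * ct P p (a i) := by
      have h5 : ∑ p ∈ T1, (e p : ℤ) * ct P p (a i) + ∑ p ∈ T0, (e p : ℤ) * ct P p (a i) =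
          ∑ p ∈ T, (e p : ℤ) * ct P p (a i) := Finset.sum_filter_add_sum_filter_not _ _ _
      rw [h2]
      linarith
    have h5 : ct P G (a i) = ∑ p ∈ T1, ct P p (a i) :=
      ct_prod P T1 _ fun p hp => hpe p (hT1T p hp)
    have h6 : ct P G (a i) ≤ ct P H (a i) := by
      rw [h4, h5]
      refine Finset.sum_le_sum fun p hp => ?_
      have h7 := ct_nonneg P (hpe p (hT1T p hp))
      have h8 : (1 : ℤ) ≤ e p := by exact_mod_cast (hT p (hT1T p hp)).2.2.2.1
      nlinarith
    have h7 : ct P H (a i) ≤ ((m : ℤ) - 1) * ct P G (a i) := by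
      rw [h4, h5, Finset.mul_sum]
      refine Finset.sum_le_sum fun p hp => ?_
      have h7 := ct_nonneg P (hpe p (hT1T p hp))
      have h8 : (e p : ℤ) ≤ (m : ℤ) - 1 := by
        have := hem p (hT1T p hp)
        omega
      nlinarith
    have h8 : 0 ≤ ct P G (a i) := ct_nonneg P (hGa i)
    obtain ⟨c, hc⟩ := h1
    by_contra hcon
    push Not at hcon
    have h9 : ct P G (a i) = 1 := by omega
    rw [h9, hc] at h6
    rw [h9, hc, mul_one] at h7
    have hm' : (2 : ℤ) ≤ m := by exact_mod_cast hm
    have h10 : c < 1 := by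
      by_contra h
      push Not at h
      nlinarith
    have h11 : c ≤ 0 := by omega
    nlinarith
  -- the values of the irreducible factors
  have hcd : (0 : ℤ) ≤ max (canDeg k K) 0 := le_max_right _ _
  have hval : ∀ p ∈ T, hgt k (p.eval (algebraMap k K y)) ≤
      (2 * n * p.natDegree : ℕ) * max (canDeg k K) 0 := by
    intro p hp
    have hnn : (0 : ℤ) ≤ (2 * n * p.natDegree : ℕ) * max (canDeg k K) 0 :=
      mul_nonneg (by positivity) hcd
    -- a root in the Galois extension
    obtain ⟨t, ht⟩ : ∃ t : L, aeval t p = 0 := by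
      have hdp : (p.map (algebraMap K L)).degree ≠ 0 := by
        rw [Polynomial.degree_map]
        exact (Polynomial.degree_pos_of_irreducible (hT p hp).1).ne'
      obtain ⟨t, ht⟩ := (hps p hp).exists_eval_eq_zero hdp
      exact ⟨t, by rwa [Polynomial.eval_map_algebraMap] at ht⟩
    by_cases hpc : ∃ c : k, p.eval (algebraMap k K c) = 0
    · obtain ⟨c, hc⟩ := hpc
      rw [eq_X_sub_C (hT p hp).1 (hT p hp).2.1 hc]
      have h1 : (X - C (algebraMap k K c)).eval (algebraMap k K y) = algebraMap k K (y - c) := by
        rw [Polynomial.eval_sub, Polynomial.eval_X, Polynomial.eval_C, map_sub]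
      rw [h1, hgt_algebraic (isAlgebraic_algebraMap _)]
      exact mul_nonneg (by positivity) hcd
    push Not at hpc
    have hpT1 : p ∈ T1 := Finset.mem_filter.2 ⟨hp, fun i => hpc _⟩
    have htt : Transcendental k t := by
      intro halg
      have h2 := IsAlgClosed.degree_eq_one_of_irreducible k (minpoly.irreducible halg.isIntegral)
      obtain ⟨c, hc⟩ := minpoly.mem_range_of_degree_eq_one k t h2
      apply hpc c
      have h3 : algebraMap K L (p.eval (algebraMap k K c)) = 0 := by
        rw [← ht, ← hc]
        rw [← Polynomial.aeval_algebraMap_apply_eq_algebraMap_eval,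
          ← IsScalarTower.algebraMap_apply]
      exact (map_eq_zero _).1 h3
    have htG : aeval t G = 0 := by
      rw [hG, map_prod]
      exact Finset.prod_eq_zero hpT1 ht
    have hS : Algebra.IsAlgebraic (Algebra.adjoin k (G.rootSet L)) L := by
      refine algebraic_of_mem (t := t) ?_ ?_ htt
      · rw [trdeg_ext (K := K)]
        exact IsFF.trdeg (k := k) (K := K)
      · rw [Polynomial.mem_rootSet]
        exact ⟨hG0, htG⟩
    have hcore := core_hgt (L := L) G hGsep hGs hS (fun i => a (ee i))
      (fun i j hij => ee.injective (Subtype.ext (ha hij))) 2 (fun _ => 1) (fun _ => by norm_num)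
      (by
        rw [Finset.sum_const, Finset.card_univ, Fintype.card_fin, smul_eq_mul, mul_one]
        omega)
      (fun i => hGa _) (by
        intro P j0 hj0 hj1 i
        have h1 : P.ord (G.coeff j0) = cnt P G := by
          refine (cnt_unique P (fun j => ?_) ⟨j0, hj0, rfl⟩).symm
          exact hj1 j
        rw [h1]
        rcases hram P (ee i) (hee i) with h2 | h2
        · left
          unfold ct at h2
          omega
        · right
          unfold ct at h2
          push_cast
          linarith) t htG y
    obtain ⟨f, hf0, hf1, hf2⟩ := norm_root (hT p hp).1 (hT p hp).2.1 ht y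
    have hpy : p.eval (algebraMap k K y) ≠ 0 := hpc y
    rw [hf2, hgt_pow (mul_ne_zero (pow_ne_zero _ (neg_ne_zero.2 one_ne_zero)) hpy)] at hcore
    have h5 : hgt k ((-1) ^ p.natDegree * p.eval (algebraMap k K y)) =
        hgt k (p.eval (algebraMap k K y)) := by
      unfold hgt
      refine finsum_congr fun P => ?_
      rw [P.ord_mul (pow_ne_zero _ (neg_ne_zero.2 one_ne_zero)) hpy, P.ord_pow, P.ord_neg,
        P.ord_one]
      simp
    rw [h5, ← hf1] at hcore
    have h6 : (f : ℤ) * hgt k (p.eval (algebraMap k K y)) ≤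
        f * ((2 * n * p.natDegree : ℕ) * max (canDeg k K) 0) := by
      refine hcore.trans ?_
      have h7 : (2 * (G.natDegree * (p.natDegree * f)) : ℕ) * canDeg k K ≤
          ((2 * (G.natDegree * (p.natDegree * f)) : ℕ) : ℤ) * max (canDeg k K) 0 :=
        mul_le_mul_of_nonneg_left (le_max_left _ _) (by positivity)
      refine h7.trans ?_
      have h8 : ((2 * (G.natDegree * (p.natDegree * f)) : ℕ) : ℤ) ≤
          f * (2 * n * p.natDegree : ℕ) := by
        have h9 : 2 * (G.natDegree * (p.natDegree * f)) ≤ f * (2 * n * p.natDegree) := by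
          have h10 : G.natDegree ≤ n := by omega
          calc 2 * (G.natDegree * (p.natDegree * f)) = G.natDegree * (2 * (p.natDegree * f)) := by
                ring
            _ ≤ n * (2 * (p.natDegree * f)) := Nat.mul_le_mul_right _ h10
            _ = f * (2 * n * p.natDegree) := by ring
        exact_mod_cast h9
      calc ((2 * (G.natDegree * (p.natDegree * f)) : ℕ) : ℤ) * max (canDeg k K) 0
          ≤ (f * (2 * n * p.natDegree : ℕ)) * max (canDeg k K) 0 :=
            mul_le_mul_of_nonneg_right h8 hcd
        _ = f * ((2 * n * p.natDegree : ℕ) * max (canDeg k K) 0) := by ring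
    exact le_of_mul_le_mul_left h6 (by exact_mod_cast hf0)
  -- the value of the polynomial
  have hul : H.leadingCoeff = u := by
    rw [hHT, Polynomial.leadingCoeff_mul, Polynomial.leadingCoeff_C,
      Polynomial.Monic.leadingCoeff (Polynomial.monic_prod_of_monic _ _ fun p hp =>
        (hT p hp).2.1.pow _), mul_one]
  have hHy : H.eval (algebraMap k K y) / H.leadingCoeff =
      ∏ p ∈ T, (p.eval (algebraMap k K y)) ^ e p := by
    rw [hul]
    conv_lhs => rw [hHT]
    rw [Polynomial.eval_mul, Polynomial.eval_C, Polynomial.eval_prod, mul_div_cancel_left₀ _ hu]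
    exact Finset.prod_congr rfl fun p _ => Polynomial.eval_pow _
  rw [hHy]
  by_cases h0 : ∃ p ∈ T, p.eval (algebraMap k K y) = 0
  · obtain ⟨p, hp, hp0⟩ := h0
    rw [Finset.prod_eq_zero hp (by
      rw [hp0, zero_pow (by have := (hT p hp).2.2.2.1; omega)]), hgt_zero]
    exact mul_nonneg (by positivity) hcd
  push Not at h0
  refine (hgt_prod_le T _ fun p hp => pow_ne_zero _ (h0 p hp)).trans ?_
  have h1 : ∀ p ∈ T, hgt k (p.eval (algebraMap k K y) ^ e p) ≤
      (2 * n * m * p.natDegree : ℕ) * max (canDeg k K) 0 := by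
    intro p hp
    rw [hgt_pow (h0 p hp)]
    have h2 := hval p hp
    have h3 : (e p : ℤ) ≤ m := by exact_mod_cast (hem p hp).le
    have h4 : (0 : ℤ) ≤ (2 * n * p.natDegree : ℕ) * max (canDeg k K) 0 :=
      mul_nonneg (by positivity) hcd
    calc (e p : ℤ) * hgt k (p.eval (algebraMap k K y))
        ≤ e p * ((2 * n * p.natDegree : ℕ) * max (canDeg k K) 0) :=
          mul_le_mul_of_nonneg_left h2 (by positivity)
      _ ≤ m * ((2 * n * p.natDegree : ℕ) * max (canDeg k K) 0) :=
          mul_le_mul_of_nonneg_right h3 h4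
      _ = (2 * n * m * p.natDegree : ℕ) * max (canDeg k K) 0 := by push_cast; ring
  refine (Finset.sum_le_sum h1).trans ?_
  rw [← Finset.sum_mul]
  refine mul_le_mul_of_nonneg_right ?_ hcd
  have h2 : ∑ p ∈ T, 2 * n * m * p.natDegree ≤ 2 * n * n * m := by
    rw [← Finset.mul_sum]
    calc 2 * n * m * ∑ p ∈ T, p.natDegree ≤ 2 * n * m * n := Nat.mul_le_mul_left _ hdegT
      _ = 2 * n * n * m := by ring
  exact_mod_cast h2

end Pool.Agent.H441.AC
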