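import Pool.Agent.H441.FT.LogEmb
import Pool.Graph.R_pool_sql_team_seeded_63374d34.N254.SQ.AlgIffR

/-!
Degrees of maps from algebraic curves under the embeddings.
-/

set_option autoImplicit false

namespace Pool.Agent.H441.AC

open MvPolynomial FF
open Pool.Agent.N254.SQ hiding Extends lin
open Pool.Agent.W602.GT (GeneralType LogGeneralType coords SubVar)
open Pool.Agent.W603.LV (canDeg Ge)
open Pool.Agent.W603.PV (pht pord pord_le exists_pord pord_scale pht_scale pord_finite ge_form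
  ge_pord)
open Pool.Agent.H441.DQ (dform dform_hom dform_eval)
open Pool.Agent.H441.UA (FEmb vals pullφ pullφ_eval twist twist_eval twist_form)
open Pool.Agent.H441.FT (Match value_copy notIn_copy vals_one copy_coords copy_gen root_ne Push
  ExcSet)

section

variable {n N k m : ℕ} {ι κ γ : Type} {F : ι → MvPolynomial (Fin (n + 1)) ℂ}
  {T : κ → MvPolynomial (Fin (n + 1)) ℂ} {G : γ → MvPolynomial (Fin (n + 1)) ℂ}
  {φ : Fin (N + 1) → MvPolynomial (Fin (n + 1)) ℂ} {c : Fin k → Fin (N + 1) → ℂ}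
  {I J : Set (Fin (N + 1))}

theorem vec_ne {R : Type} [Zero R] {f : Fin (n + 1) → R} (hf : f ≠ 0) : ∃ j, f j ≠ 0 := by
  by_contra hcon
  push Not at hcon
  exact hf (funext hcon)

/-- the degree of a curve in a copy -/
theorem pht_copy (hE : FEmb m F T G φ c I J) : ∃ e : ℕ, 1 ≤ e ∧ ∀ (E : Type) [Field E]
    [Algebra ℂ E] [IsFF ℂ E] (x : Fin (n + 1) → E) (s : E) (ζ : Fin (N + 1) → ℂ)
    (y : Fin (N + 1) → E), x ≠ 0 → s ≠ 0 → (∀ j, ζ j ≠ 0) →
    (∀ j, y j = s * (algebraMap ℂ E (ζ j) * vals (algebraMap ℂ E) φ x j)) →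
    pht ℂ y = e * pht ℂ x := by
  obtain ⟨e, he, hφ, hmono⟩ := hE.mono
  refine ⟨e, he, fun E _ _ _ x s ζ y hx hs hζ hy => ?_⟩
  set u : Fin (N + 1) → E := fun j => algebraMap ℂ E (ζ j) * vals (algebraMap ℂ E) φ x j with hu
  have hv := hE.ne E (algebraMap ℂ E) x hx
  obtain ⟨j0, hj0⟩ := vec_ne hv
  have hz : ∀ j, algebraMap ℂ E (ζ j) ≠ 0 := fun j => (_root_.map_ne_zero _).2 (hζ j)
  have hu0 : ∃ j, u j ≠ 0 := ⟨j0, mul_ne_zero (hz j0) hj0⟩
  have hyu : y = fun j => s * u j := funext hy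
  have hord : ∀ P : Place ℂ E, pord P u = e * pord P x := by
    intro P
    apply le_antisymm
    · obtain ⟨i, hi, hio⟩ := exists_pord P (vec_ne hx)
      obtain ⟨j, hj⟩ := hmono (fun l => if l = i then e else 0) (by simp)
      have h1 : vals (algebraMap ℂ E) φ x j = x i ^ e := by
        unfold vals
        rw [hj, ← coe_eval₂Hom, map_prod, Finset.prod_eq_single i]
        · simp
        · intro l _ hl
          simp [hl]
        · intro h
          exact absurd (Finset.mem_univ i) h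
      have h2 : u j ≠ 0 := by
        simp only [hu]
        rw [h1]
        exact mul_ne_zero (hz j) (pow_ne_zero _ hi)
      have h3 := pord_le P h2
      have h4 : P.ord (u j) = e * pord P x := by
        simp only [hu]
        rw [h1, P.ord_mul (hz j) (pow_ne_zero _ hi), P.ord_const (hζ j), P.ord_pow, hio, zero_add]
      rw [h4] at h3
      exact h3
    · obtain ⟨j, hj, hjo⟩ := exists_pord P hu0
      rw [← hjo]
      have h1 : vals (algebraMap ℂ E) φ x j ≠ 0 := right_ne_zero_of_mul hj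
      have h2 : P.ord (u j) = P.ord (vals (algebraMap ℂ E) φ x j) := by
        simp only [hu]
        rw [P.ord_mul (hz j) h1, P.ord_const (hζ j), zero_add]
      rw [h2]
      have h3 := ge_form P x (hφ j) (fun α _ => Ge.const _)
      exact h3.resolve_left h1
  have h1 : pht ℂ y = pht ℂ u := by
    rw [hyu]
    exact pht_scale hu0 hs
  rw [h1]
  unfold pht
  rw [mul_neg, mul_finsum]
  simp only [hord]

end

section

variable {n N k m : ℕ} {κ γ : Type} {S : Set (MvPolynomial (Fin (n + 1)) ℂ)}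
  {S₀ : Finset (MvPolynomial (Fin (n + 1)) ℂ)}
  {T : κ → MvPolynomial (Fin (n + 1)) ℂ} {G : γ → MvPolynomial (Fin (n + 1)) ℂ}
  {φ : Fin (N + 1) → MvPolynomial (Fin (n + 1)) ℂ} {c : Fin k → Fin (N + 1) → ℂ}
  {I J : Set (Fin (N + 1))} {T₁ : Set (MvPolynomial (Fin (n + 1)) ℂ)}
  {T₂ : Set (MvPolynomial (Fin (N + 1)) ℂ)}

theorem push_bounded : Push fun _ S T G => OnBoundedQ S T G := by
  intro n N k m S κ γ T G φ c I J hE S' hS T₁ T₂ hM H hH h E _ _ _ s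
  have hζ : ∀ j : Fin (N + 1), (fun _ : Fin (N + 1) => (1 : ℂ)) j ≠ 0 := fun _ => one_ne_zero
  obtain ⟨e, he, hpht⟩ := pht_copy hE
  obtain ⟨B, hB⟩ := h E s
  refine ⟨B, fun x hx hxS hxT hxv hxG => ?_⟩
  have h1 := hB (vals (algebraMap ℂ E) φ x) (hE.ne E _ x hx) (by
      rintro _ ⟨i, rfl⟩
      exact (hE.pts E (algebraMap ℂ E) x hx).1 (fun p => hS E x hxS p p.2) i)
    ((notIn_copy hM hx one_ne_zero hζ (fun j => vals_one x j)).2 hxT)
    (fun P hP => (value_copy hE hM hx one_ne_zero hζ (fun j => vals_one x j) P).2 (hxv P hP))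
    (by rw [pullφ_eval] at hxG; exact hxG)
  rw [hpht E x 1 _ _ hx one_ne_zero hζ (fun j => vals_one x j)] at h1
  have h2 := algiff_nonneg hx
  have h3 : (1 : ℤ) ≤ e := by exact_mod_cast he
  nlinarith

theorem push_degrees : Push fun _ S T G => OnDegreesQ S T G := by
  intro n N k m S κ γ T G φ c I J hE S' hS T₁ T₂ hM H hH h
  have hζ : ∀ j : Fin (N + 1), (fun _ : Fin (N + 1) => (1 : ℂ)) j ≠ 0 := fun _ => one_ne_zero
  obtain ⟨e, he, hpht⟩ := pht_copy hE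
  obtain ⟨β, hβ⟩ := h
  refine ⟨β, fun E _ _ _ s x hx hxc hxS hxT hxv hxG => ?_⟩
  have h1 := hβ E s (vals (algebraMap ℂ E) φ x) (hE.ne E _ x hx)
    (hE.coords_eq (RingHom.id ℂ) hxc) (by
      rintro _ ⟨i, rfl⟩
      exact (hE.pts E (algebraMap ℂ E) x hx).1 (fun p => hS E x hxS p p.2) i)
    ((notIn_copy hM hx one_ne_zero hζ (fun j => vals_one x j)).2 hxT)
    (fun P hP => (value_copy hE hM hx one_ne_zero hζ (fun j => vals_one x j) P).2 (hxv P hP))
    (by rw [pullφ_eval] at hxG; exact hxG)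
  rw [hpht E x 1 _ _ hx one_ne_zero hζ (fun j => vals_one x j)] at h1
  have h2 := algiff_nonneg hx
  have h3 : (1 : ℤ) ≤ e := by exact_mod_cast he
  nlinarith

/-- maps from algebraic curves to the system -/
theorem emb_alg (hE : FEmb m (fun p : S₀ => (p : MvPolynomial (Fin (n + 1)) ℂ)) T G φ c I J)
    (hS : ∀ (Ω : Type) [Field Ω] [Algebra ℂ Ω] (x : Fin (n + 1) → Ω),
      (∀ p : S₀, aeval x (p : MvPolynomial (Fin (n + 1)) ℂ) = 0) ↔ ∀ p ∈ S, aeval x p = 0) :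
    ∃ C : ℕ, ∀ (E : Type) [Field E] [Algebra ℂ E] [IsFF ℂ E] (y : Fin (N + 1) → E), y ≠ 0 →
      (∀ i, aeval y (dform m (c i)) = 0) → pht ℂ y ≤ C * max (canDeg ℂ E) 0 ∨
        ∃ (ζ : Fin (N + 1) → ℂ) (x : Fin (n + 1) → E) (s : E), (∀ j, ζ j ^ m = 1) ∧ s ≠ 0 ∧
          x ≠ 0 ∧ (∀ p ∈ S, aeval x p = 0) ∧
          ∀ j, y j = s * (algebraMap ℂ E (ζ j) * aeval x (φ j)) := by
  obtain ⟨C, hC⟩ := hE.alg ℂ
  refine ⟨C, fun E _ _ _ y hy hyY => ?_⟩
  rcases hC (RingHom.id ℂ) E y hy hyY with h | ⟨ζ, x, s, hζ, hx, hs, hxF, hyx⟩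
  · exact Or.inl h
  · exact Or.inr ⟨ζ, x, s, hζ, hs, hx, (hS E x).1 hxF, hyx⟩

/-- copies of maps from algebraic curves to `X` -/
theorem emb_alg_copies (hm : m ≠ 0)
    (hE : FEmb m (fun p : S₀ => (p : MvPolynomial (Fin (n + 1)) ℂ)) T G φ c I J)
    (hS : ∀ (Ω : Type) [Field Ω] [Algebra ℂ Ω] (x : Fin (n + 1) → Ω),
      (∀ p : S₀, aeval x (p : MvPolynomial (Fin (n + 1)) ℂ) = 0) ↔ ∀ p ∈ S, aeval x p = 0)
    (hM : Match φ T₁ T₂) :
    ∃ e : ℕ, 1 ≤ e ∧ ∀ (E : Type) [Field E] [Algebra ℂ E] [IsFF ℂ E] (ζ : Fin (N + 1) → ℂ)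
      (x : Fin (n + 1) → E) (s : E) (y : Fin (N + 1) → E), (∀ j, ζ j ^ m = 1) → s ≠ 0 → x ≠ 0 →
      (∀ p ∈ S, aeval x p = 0) → (∀ j, y j = s * (algebraMap ℂ E (ζ j) * aeval x (φ j))) →
      y ≠ 0 ∧ (∀ i, aeval y (dform m (c i)) = 0) ∧ pht ℂ y = e * pht ℂ x ∧
        (NotIn T₂ y ↔ NotIn T₁ x) ∧ (coords ℂ y = ⊤ ↔ coords ℂ x = ⊤) ∧
        ∀ P : Place ℂ E, ValueNotIn T₂ y P ↔ ValueNotIn T₁ x P := by
  obtain ⟨e, he, hpht⟩ := pht_copy hE
  refine ⟨e, he, fun E _ _ _ ζ x s y hζ hs hx hxS hyx => ?_⟩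
  have hζ0 := root_ne hm hζ
  have hv := hE.ne E (algebraMap ℂ E) x hx
  refine ⟨?_, fun i => ?_, hpht E x s ζ y hx hs hζ0 hyx, notIn_copy hM hx hs hζ0 hyx,
    ⟨fun h => copy_gen hE (RingHom.id ℂ) h hx hs hyx,
      fun h => copy_coords hE (RingHom.id ℂ) h hs hζ0 hyx⟩,
    fun P => value_copy hE hM hx hs hζ0 hyx P⟩
  · obtain ⟨j, hj⟩ := vec_ne hv
    intro h0
    have h1 := congrFun h0 j
    rw [hyx j] at h1
    exact mul_ne_zero hs (mul_ne_zero ((_root_.map_ne_zero _).2 (hζ0 j)) hj) h1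
  · have h1 := (hE.pts E (algebraMap ℂ E) x hx).1 (fun p => (hS E x).2 hxS p) i
    rw [dform_eval] at h1
    change eval₂ (algebraMap ℂ E) y (dform m (c i)) = 0
    rw [dform_eval]
    have h2 : ∀ j, algebraMap ℂ E (c i j) * y j ^ m =
        s ^ m * (algebraMap ℂ E (c i j) * vals (algebraMap ℂ E) φ x j ^ m) := by
      intro j
      have h3 : y j = s * (algebraMap ℂ E (ζ j) * vals (algebraMap ℂ E) φ x j) := hyx j
      rw [h3, mul_pow, mul_pow, ← map_pow, hζ, map_one, one_mul]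
      ring
    rw [Finset.sum_congr rfl fun j _ => h2 j, ← Finset.mul_sum, h1, mul_zero]

end

end Pool.Agent.H441.AC
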