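import Pool.Agent.H441.AC.Rad
import Mathlib.Order.Filter.Ultrafilter.Basic

/-!
Ultraproducts of function fields of curves and the subfield of the elements of bounded height.
-/

set_option autoImplicit false

open FF Pool.Agent.W603.LV Pool.Agent.W603.PV Filter

namespace Pool.Agent.H441.AC

section hgt

variable {k K : Type} [Field k] [Field K] [Algebra k K] [CharZero k] [IsFF k K]

theorem hgt_add_le (x y : K) : hgt k (x + y) ≤ hgt k x + hgt k y := by
  have h1 := hgt_mvpoly (k := k) ![x, y] (MvPolynomial.X 0 + MvPolynomial.X 1)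
  have h2 : (MvPolynomial.X 0 + MvPolynomial.X 1 : MvPolynomial (Fin 2) k).totalDegree ≤ 1 := by
    refine (MvPolynomial.totalDegree_add _ _).trans ?_
    simp [MvPolynomial.totalDegree_X]
  simp only [map_add, MvPolynomial.aeval_X, Matrix.cons_val_zero, Matrix.cons_val_one,
    Fin.sum_univ_two] at h1
  refine h1.trans ?_
  have h3 : 0 ≤ hgt k x + hgt k y := add_nonneg (hgt_nonneg x) (hgt_nonneg y)
  have h4 : (((MvPolynomial.X 0 + MvPolynomial.X 1 : MvPolynomial (Fin 2) k).totalDegree : ℕ) : ℤ)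
      ≤ 1 := by exact_mod_cast h2
  nlinarith

theorem hgt_mul_le (x y : K) : hgt k (x * y) ≤ hgt k x + hgt k y := by
  by_cases hx : x = 0
  · rw [hx, zero_mul, hgt_zero, zero_add]
    exact hgt_nonneg y
  · by_cases hy : y = 0
    · rw [hy, mul_zero, hgt_zero, add_zero]
      exact hgt_nonneg x
    · exact hgt_mul hx hy

theorem hgt_neg_eq (x : K) : hgt k (-x) = hgt k x := by
  unfold hgt
  simp only [Place.ord_neg]

end hgt

section ultra

variable (U : Ultrafilter ℕ) (L : ℕ → Type) [∀ j, Field (L j)]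

/-- the ideal of the families which are zero almost everywhere -/
def nul : Ideal (∀ j, L j) where
  carrier := {x | ∀ᶠ j in (U : Filter ℕ), x j = 0}
  add_mem' := by
    intro x y hx hy
    have hx' : ∀ᶠ j in (U : Filter ℕ), x j = 0 := hx
    have hy' : ∀ᶠ j in (U : Filter ℕ), y j = 0 := hy
    show ∀ᶠ j in (U : Filter ℕ), (x + y) j = 0
    filter_upwards [hx', hy'] with j h1 h2
    rw [Pi.add_apply, h1, h2, add_zero]
  zero_mem' := Eventually.of_forall fun _ => rfl
  smul_mem' := by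
    intro c x hx
    have hx' : ∀ᶠ j in (U : Filter ℕ), x j = 0 := hx
    show ∀ᶠ j in (U : Filter ℕ), (c • x) j = 0
    filter_upwards [hx'] with j h
    rw [smul_eq_mul, Pi.mul_apply, h, mul_zero]

theorem mem_nul {x : ∀ j, L j} : x ∈ nul U L ↔ ∀ᶠ j in (U : Filter ℕ), x j = 0 := Iff.rfl

instance nul_max : (nul U L).IsMaximal := by
  rw [Ideal.isMaximal_iff]
  constructor
  · intro h
    rw [mem_nul] at h
    obtain ⟨j, hj⟩ := h.exists
    exact one_ne_zero hj
  · intro J x hJ hx hxJ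
    rw [mem_nul, ← Ultrafilter.eventually_not] at hx
    have h1 : (1 - (fun j => (x j)⁻¹) * x : ∀ j, L j) ∈ nul U L := by
      rw [mem_nul]
      filter_upwards [hx] with j hj
      rw [Pi.sub_apply, Pi.mul_apply, Pi.one_apply, inv_mul_cancel₀ hj, sub_self]
    have h2 := J.add_mem (hJ h1) (J.mul_mem_left (fun j => (x j)⁻¹) hxJ)
    rwa [sub_add_cancel] at h2

/-- the ultraproduct -/
abbrev Ult : Type := (∀ j, L j) ⧸ nul U L

noncomputable instance ultField : Field (Ult U L) := Ideal.Quotient.field _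

variable {U L}

/-- the class of a family -/
def mk (x : ∀ j, L j) : Ult U L := Ideal.Quotient.mk _ x

theorem mk_eq {x y : ∀ j, L j} : (mk x : Ult U L) = mk y ↔ ∀ᶠ j in (U : Filter ℕ), x j = y j := by
  unfold mk
  rw [Ideal.Quotient.eq, mem_nul]
  simp only [Pi.sub_apply, sub_eq_zero]

theorem mk_surj (z : Ult U L) : ∃ x, mk x = z := Ideal.Quotient.mk_surjective z

theorem mk_add (x y : ∀ j, L j) : (mk (x + y) : Ult U L) = mk x + mk y := map_add _ _ _

theorem mk_mul (x y : ∀ j, L j) : (mk (x * y) : Ult U L) = mk x * mk y := map_mul _ _ _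

theorem mk_neg (x : ∀ j, L j) : (mk (-x) : Ult U L) = -mk x := map_neg _ _

theorem mk_zero : (mk (fun _ => 0 : ∀ j, L j) : Ult U L) = 0 := map_zero (Ideal.Quotient.mk _)

theorem mk_one : (mk (fun _ => 1 : ∀ j, L j) : Ult U L) = 1 := map_one (Ideal.Quotient.mk _)

theorem mk_pow (x : ∀ j, L j) (n : ℕ) : (mk (x ^ n) : Ult U L) = mk x ^ n := map_pow _ _ _

theorem mk_sum {ι : Type} (s : Finset ι) (x : ι → ∀ j, L j) :
    (mk (∑ i ∈ s, x i) : Ult U L) = ∑ i ∈ s, mk (x i) := map_sum _ _ _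

theorem mk_natCast (n : ℕ) : (mk (fun _ => (n : _) : ∀ j, L j) : Ult U L) = n :=
  map_natCast (Ideal.Quotient.mk (nul U L)) n

theorem mk_inv (x : ∀ j, L j) : (mk (fun j => (x j)⁻¹) : Ult U L) = (mk x)⁻¹ := by
  by_cases h : (mk x : Ult U L) = 0
  · rw [h, inv_zero, ← mk_zero, mk_eq]
    rw [← mk_zero, mk_eq] at h
    filter_upwards [h] with j hj
    rw [hj, inv_zero]
  · rw [← mk_zero, mk_eq, ← Ultrafilter.eventually_not] at h
    apply eq_inv_of_mul_eq_one_left
    rw [← mk_mul, ← mk_one, mk_eq]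
    filter_upwards [h] with j hj
    rw [Pi.mul_apply, inv_mul_cancel₀ hj]

theorem mk_div (x y : ∀ j, L j) : (mk (fun j => x j / y j) : Ult U L) = mk x / mk y := by
  rw [div_eq_mul_inv, ← mk_inv, ← mk_mul, mk_eq]
  exact Eventually.of_forall fun j => div_eq_mul_inv _ _

end ultra

section bdd

variable {k : Type} [Field k] [IsAlgClosed k] [CharZero k] (U : Ultrafilter ℕ) (L : ℕ → Type)
  [∀ j, Field (L j)] [∀ j, Algebra k (L j)] [∀ j, IsFF k (L j)] (b : ℕ → ℤ)

variable (k) in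
/-- the heights are bounded -/
def Bdd (x : ∀ j, L j) : Prop := ∃ C : ℕ, ∀ᶠ j in (U : Filter ℕ), hgt k (x j) ≤ C * b j

variable {U L b}

theorem Bdd.add {x y : ∀ j, L j} (hx : Bdd k U L b x) (hy : Bdd k U L b y) :
    Bdd k U L b (x + y) := by
  obtain ⟨C, hC⟩ := hx
  obtain ⟨C', hC'⟩ := hy
  refine ⟨C + C', ?_⟩
  filter_upwards [hC, hC'] with j h1 h2
  refine (hgt_add_le _ _).trans ?_
  push_cast
  linarith

theorem Bdd.mul {x y : ∀ j, L j} (hx : Bdd k U L b x) (hy : Bdd k U L b y) :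
    Bdd k U L b (x * y) := by
  obtain ⟨C, hC⟩ := hx
  obtain ⟨C', hC'⟩ := hy
  refine ⟨C + C', ?_⟩
  filter_upwards [hC, hC'] with j h1 h2
  refine (hgt_mul_le _ _).trans ?_
  push_cast
  linarith

theorem Bdd.neg {x : ∀ j, L j} (hx : Bdd k U L b x) : Bdd k U L b (-x) := by
  obtain ⟨C, hC⟩ := hx
  refine ⟨C, ?_⟩
  filter_upwards [hC] with j h1
  rw [Pi.neg_apply, hgt_neg_eq]
  exact h1

theorem Bdd.inv {x : ∀ j, L j} (hx : Bdd k U L b x) : Bdd k U L b (fun j => (x j)⁻¹) := by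
  obtain ⟨C, hC⟩ := hx
  refine ⟨C, ?_⟩
  filter_upwards [hC] with j h1
  rw [hgt_inv]
  exact h1

theorem Bdd.const (x : ∀ _ : ℕ, k) : Bdd k U L b (fun j => algebraMap k (L j) (x j)) := by
  refine ⟨0, Eventually.of_forall fun j => ?_⟩
  rw [hgt_algebraic (isAlgebraic_algebraMap _)]
  simp

variable (k U L b) in
/-- the subfield of the elements of bounded height -/
noncomputable def bsub : Subfield (Ult U L) where
  carrier := {z | ∃ x, Bdd k U L b x ∧ mk x = z}
  mul_mem' := by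
    rintro _ _ ⟨x, hx, rfl⟩ ⟨y, hy, rfl⟩
    exact ⟨x * y, hx.mul hy, mk_mul x y⟩
  one_mem' := by
    refine ⟨fun _ => 1, ?_, mk_one⟩
    have h1 := Bdd.const (k := k) (U := U) (L := L) (b := b) fun _ => 1
    simpa only [map_one] using h1
  add_mem' := by
    rintro _ _ ⟨x, hx, rfl⟩ ⟨y, hy, rfl⟩
    exact ⟨x + y, hx.add hy, mk_add x y⟩
  zero_mem' := by
    refine ⟨fun _ => 0, ?_, mk_zero⟩
    have h1 := Bdd.const (k := k) (U := U) (L := L) (b := b) fun _ => 0
    simpa only [map_zero] using h1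
  neg_mem' := by
    rintro _ ⟨x, hx, rfl⟩
    exact ⟨-x, hx.neg, mk_neg x⟩
  inv_mem' := by
    rintro _ ⟨x, hx, rfl⟩
    exact ⟨fun j => (x j)⁻¹, hx.inv, mk_inv x⟩

theorem mem_bsub {z : Ult U L} : z ∈ bsub k U L b ↔ ∃ x, Bdd k U L b x ∧ mk x = z := Iff.rfl

theorem mk_mem_bsub {x : ∀ j, L j} : (mk x : Ult U L) ∈ bsub k U L b ↔ Bdd k U L b x := by
  rw [mem_bsub]
  constructor
  · rintro ⟨y, ⟨C, hC⟩, h⟩
    rw [mk_eq] at h
    refine ⟨C, ?_⟩
    filter_upwards [hC, h] with j h1 h2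
    rw [← h2]
    exact h1
  · intro h
    exact ⟨x, h, rfl⟩

/-- the subfield is algebraically closed in the ultraproduct -/
theorem bsub_closed (z : Ult U L) (hz : IsAlgebraic (bsub k U L b) z) : z ∈ bsub k U L b := by
  classical
  obtain ⟨x, rfl⟩ := mk_surj z
  rw [mk_mem_bsub]
  set p := minpoly (bsub k U L b) (mk x : Ult U L) with hp
  have hpm : p.Monic := minpoly.monic hz.isIntegral
  have hpx : Polynomial.aeval (mk x : Ult U L) p = 0 := minpoly.aeval _ _
  have hc : ∀ i, ∃ e : ∀ j, L j, Bdd k U L b e ∧ mk e = (p.coeff i : Ult U L) := fun i =>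
    (p.coeff i).2
  choose e he hep using hc
  have h1 : ∀ᶠ j in (U : Filter ℕ), ∑ d ∈ Finset.range (p.natDegree + 1), e d j * x j ^ d = 0 := by
    have h2 : (mk (∑ d ∈ Finset.range (p.natDegree + 1), e d * x ^ d) : Ult U L) =
        mk fun _ => 0 := by
      rw [mk_sum, mk_zero, ← hpx, Polynomial.aeval_eq_sum_range]
      refine Finset.sum_congr rfl fun d _ => ?_
      rw [mk_mul, mk_pow, hep, Algebra.smul_def]
      rfl
    rw [mk_eq] at h2
    filter_upwards [h2] with j hj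
    rw [← hj, Finset.sum_apply]
    rfl
  have h2 : ∀ᶠ j in (U : Filter ℕ), e p.natDegree j = 1 := by
    have h3 : (mk (e p.natDegree) : Ult U L) = mk fun _ => 1 := by
      rw [hep, mk_one, hpm.coeff_natDegree]
      rfl
    rw [mk_eq] at h3
    exact h3
  choose C hC using he
  have h3 : ∀ᶠ j in (U : Filter ℕ), ∀ d ∈ Finset.range (p.natDegree + 1),
      hgt k (e d j) ≤ C d * b j := by
    rw [Finset.eventually_all]
    intro d _
    exact hC d
  refine ⟨C p.natDegree + ∑ d ∈ Finset.range p.natDegree, C d, ?_⟩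
  filter_upwards [h1, h2, h3] with j h4 h5 h6
  refine (hgt_root (fun d => e d j) (by rw [h5]; exact one_ne_zero) (x j) h4).trans ?_
  push_cast
  rw [add_mul, Finset.sum_mul]
  refine add_le_add (h6 _ (Finset.mem_range.2 (by omega))) (Finset.sum_le_sum fun d hd => ?_)
  exact h6 _ (Finset.mem_range.2 (by have := Finset.mem_range.1 hd; omega))

end bdd

end Pool.Agent.H441.AC
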